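import Pool.Agent.Lib.MP_a7fa83_ag.Lw.W2

section

/-!
# W3: interpolation

A polynomial (with coefficients in a quotient space) of degree `< 6` with two simple and two double
zeros vanishes.
-/

set_option autoImplicit false

namespace MPa7fa83.Lw

open Finset PowerSeries MPa7fa83.Ok MPa7fa83.Cs

section

variable {K : Type*} [Field K]

/-- the value at `u` -/
noncomputable def evp (u : K) (g : (Polynomial K)⟦X⟧) : K⟦X⟧ :=
  PowerSeries.map (Polynomial.evalRingHom u) g

/-- the derivative at `u` -/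
noncomputable def evd (u : K) (g : (Polynomial K)⟦X⟧) : K⟦X⟧ :=
  PowerSeries.mk fun n => (Polynomial.derivative (coeff n g)).eval u

private lemma sq_dvd {h : Polynomial K} (h0 : h ≠ 0) {v : K} (h1 : h.eval v = 0)
    (h2 : (Polynomial.derivative h).eval v = 0) : (Polynomial.X - Polynomial.C v) ^ 2 ∣ h := by
  rw [← Polynomial.le_rootMultiplicity_iff h0]
  exact (Polynomial.one_lt_rootMultiplicity_iff_isRoot h0).2 ⟨h1, h2⟩

private lemma cop {u v : K} (h : u ≠ v) :
    IsCoprime (Polynomial.X - Polynomial.C u) (Polynomial.X - Polynomial.C v) :=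
  Polynomial.isCoprime_X_sub_C_of_isUnit_sub (sub_ne_zero.2 h).isUnit

/-- two simple and two double zeros -/
lemma poly_zero {h : Polynomial K} (hd : h.degree < 6) {u1 u2 v1 v2 : K}
    (h12 : u1 ≠ u2) (h13 : u1 ≠ v1) (h14 : u1 ≠ v2) (h23 : u2 ≠ v1) (h24 : u2 ≠ v2) (h34 : v1 ≠ v2)
    (e1 : h.eval u1 = 0) (e2 : h.eval u2 = 0) (e3 : h.eval v1 = 0) (e4 : h.eval v2 = 0)
    (d3 : (Polynomial.derivative h).eval v1 = 0) (d4 : (Polynomial.derivative h).eval v2 = 0) :
    h = 0 := by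
  by_contra h0
  have a1 : (Polynomial.X - Polynomial.C u1) ∣ h := Polynomial.dvd_iff_isRoot.2 e1
  have a2 : (Polynomial.X - Polynomial.C u2) ∣ h := Polynomial.dvd_iff_isRoot.2 e2
  have a3 := sq_dvd h0 e3 d3
  have a4 := sq_dvd h0 e4 d4
  have b1 : (Polynomial.X - Polynomial.C u1) * (Polynomial.X - Polynomial.C u2) ∣ h :=
    (cop h12).mul_dvd a1 a2
  have b2 : (Polynomial.X - Polynomial.C v1) ^ 2 * (Polynomial.X - Polynomial.C v2) ^ 2 ∣ h :=
    ((cop h34).pow).mul_dvd a3 a4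
  have b3 : (Polynomial.X - Polynomial.C u1) * (Polynomial.X - Polynomial.C u2) *
      ((Polynomial.X - Polynomial.C v1) ^ 2 * (Polynomial.X - Polynomial.C v2) ^ 2) ∣ h := by
    refine IsCoprime.mul_dvd ?_ b1 b2
    refine IsCoprime.mul_left (IsCoprime.mul_right ?_ ?_) (IsCoprime.mul_right ?_ ?_)
    · exact (cop h13).pow_right
    · exact (cop h14).pow_right
    · exact (cop h23).pow_right
    · exact (cop h24).pow_right
  have b4 := Polynomial.degree_le_of_dvd b3 h0
  have b5 : ((Polynomial.X - Polynomial.C u1) * (Polynomial.X - Polynomial.C u2) *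
      ((Polynomial.X - Polynomial.C v1) ^ 2 * (Polynomial.X - Polynomial.C v2) ^ 2)).degree =
      6 := by
    simp only [Polynomial.degree_mul, Polynomial.degree_pow, Polynomial.degree_X_sub_C]
    rfl
  rw [b5] at b4
  exact absurd (lt_of_le_of_lt b4 hd) (lt_irrefl _)

lemma evp_eq {g : (Polynomial K)⟦X⟧} {N : ℕ} (h0 : ∀ j, N < j → cu j g = 0) (u : K) :
    evp u g = ∑ j ∈ range (N + 1), u ^ j • cu j g := by
  ext n
  unfold evp
  rw [PowerSeries.coeff_map, map_sum]
  have hd : (coeff n g).natDegree < N + 1 := by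
    rw [Nat.lt_succ_iff, Polynomial.natDegree_le_iff_coeff_eq_zero]
    intro j hj
    have := congrArg (coeff n) (h0 j hj)
    unfold cu at this
    rwa [coeff_mk, map_zero] at this
  rw [Polynomial.coe_evalRingHom, Polynomial.eval_eq_sum_range' hd]
  apply Finset.sum_congr rfl
  intro j _
  unfold cu
  rw [map_smul, coeff_mk, smul_eq_mul, mul_comm]

lemma evd_eq {g : (Polynomial K)⟦X⟧} {N : ℕ} (h0 : ∀ j, N < j → cu j g = 0) (u : K) :
    evd u g = ∑ j ∈ range (N + 1), ((j : K) * u ^ (j - 1)) • cu j g := by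
  ext n
  unfold evd
  rw [coeff_mk, map_sum]
  have hd : (coeff n g).natDegree < N + 1 := by
    rw [Nat.lt_succ_iff, Polynomial.natDegree_le_iff_coeff_eq_zero]
    intro j hj
    have := congrArg (coeff n) (h0 j hj)
    unfold cu at this
    rwa [coeff_mk, map_zero] at this
  rw [Polynomial.derivative_eval, Polynomial.sum_over_range' _ (fun m => by ring) (N + 1) hd]
  apply Finset.sum_congr rfl
  intro j _
  unfold cu
  rw [map_smul, coeff_mk, smul_eq_mul]
  ring

theorem interp (W : Submodule K K⟦X⟧) (g : (Polynomial K)⟦X⟧) {N M : ℕ} (hM : M ≤ 6)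
    (h0 : ∀ j, N < j → cu j g = 0) (h1 : ∀ j, M ≤ j → cu j g ∈ W) {u1 u2 v1 v2 : K}
    (h12 : u1 ≠ u2) (h13 : u1 ≠ v1) (h14 : u1 ≠ v2) (h23 : u2 ≠ v1) (h24 : u2 ≠ v2) (h34 : v1 ≠ v2)
    (e1 : evp u1 g ∈ W) (e2 : evp u2 g ∈ W) (e3 : evp v1 g ∈ W) (e4 : evp v2 g ∈ W)
    (d3 : evd v1 g ∈ W) (d4 : evd v2 g ∈ W) (j : ℕ) : cu j g ∈ W := by
  rw [← Submodule.Quotient.mk_eq_zero, ← Module.forall_dual_apply_eq_zero_iff K]
  intro ψ
  set φ : K⟦X⟧ →ₗ[K] K := ψ ∘ₗ W.mkQ with hφ
  have hφW : ∀ f ∈ W, φ f = 0 := by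
    intro f hf
    rw [hφ, LinearMap.comp_apply, Submodule.mkQ_apply, (Submodule.Quotient.mk_eq_zero W).2 hf,
      map_zero]
  change φ (cu j g) = 0
  set h : Polynomial K := ∑ i ∈ range M, Polynomial.monomial i (φ (cu i g)) with hh
  have hc : ∀ i, h.coeff i = φ (cu i g) := by
    intro i
    rw [hh, Polynomial.finsetSum_coeff]
    simp only [Polynomial.coeff_monomial]
    rw [Finset.sum_ite_eq' (range M) i]
    split_ifs with hi
    · rfl
    · exact (hφW _ (h1 i (by simpa using hi))).symm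
  have hdeg : h.degree < 6 := by
    have hd : h.degree < ((6 : ℕ) : WithBot ℕ) := by
      rw [Polynomial.degree_lt_iff_coeff_zero]
      intro m hm
      rw [hc]
      exact hφW _ (h1 m (le_trans hM hm))
    exact hd
  have hN : h.natDegree < N + 1 := by
    rw [Nat.lt_succ_iff, Polynomial.natDegree_le_iff_coeff_eq_zero]
    intro i hi
    rw [hc, h0 i hi, map_zero]
  have hev : ∀ u, h.eval u = φ (evp u g) := by
    intro u
    rw [evp_eq h0, map_sum, Polynomial.eval_eq_sum_range' hN]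
    apply Finset.sum_congr rfl
    intro i _
    rw [map_smul, hc, smul_eq_mul, mul_comm]
  have hed : ∀ u, (Polynomial.derivative h).eval u = φ (evd u g) := by
    intro u
    have e := congrArg φ (evd_eq h0 u)
    rw [map_sum] at e
    rw [e, Polynomial.derivative_eval, Polynomial.sum_over_range' _ (fun m => by ring) (N + 1) hN]
    apply Finset.sum_congr rfl
    intro i _
    rw [map_smul, hc, smul_eq_mul]
    ring
  have hz : h = 0 := poly_zero hdeg h12 h13 h14 h23 h24 h34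
    (by rw [hev, hφW _ e1]) (by rw [hev, hφW _ e2]) (by rw [hev, hφW _ e3])
    (by rw [hev, hφW _ e4]) (by rw [hed, hφW _ d3]) (by rw [hed, hφW _ d4])
  rw [← hc, hz, Polynomial.coeff_zero]

end

end MPa7fa83.Lw
end

section

/-!
# W5: first order at the weight `-a` of `M`

At `c = -a` the weight of every nonempty diagram vanishes; its derivative is nonzero only for
rectangles, where it is `(q b - p a) / (p q a b)`.
-/

set_option autoImplicit false

namespace MPa7fa83.Lw

open Finset PowerSeries MPa7fa83.Ok MPa7fa83.Cs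

/-- rectangle -/
def rc (p q : ℕ) : Finset (ℕ × ℕ) := range p ×ˢ range q

lemma mem_rc {p q : ℕ} {e : ℕ × ℕ} : e ∈ rc p q ↔ e.1 < p ∧ e.2 < q := by
  unfold rc
  rw [Finset.mem_product, Finset.mem_range, Finset.mem_range]

lemma Lo_rc (p q : ℕ) : Lo (rc p q) := by
  intro i j i' j' h h1 h2
  rw [mem_rc] at h ⊢
  exact ⟨lt_of_le_of_lt h1 h.1, lt_of_le_of_lt h2 h.2⟩

lemma card_rc (p q : ℕ) : (rc p q).card = p * q := by
  unfold rc
  rw [Finset.card_product, Finset.card_range, Finset.card_range]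

lemma arm_rc {p q : ℕ} {e : ℕ × ℕ} (he : e ∈ rc p q) : arm (rc p q) e = p - e.1 - 1 := by
  rw [mem_rc] at he
  unfold arm
  have h : (rc p q).filter (fun f => f.2 = e.2 ∧ e.1 < f.1) =
      (Ioo e.1 p).image (fun i => (i, e.2)) := by
    ext ⟨i, j⟩
    rw [Finset.mem_filter, mem_rc, Finset.mem_image]
    constructor
    · rintro ⟨⟨h1, h2⟩, h3, h4⟩
      exact ⟨i, Finset.mem_Ioo.2 ⟨h4, h1⟩, by simp only at h3; rw [h3]⟩
    · rintro ⟨i', h1, h2⟩
      rw [Prod.mk.injEq] at h2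
      obtain ⟨rfl, rfl⟩ := h2
      rw [Finset.mem_Ioo] at h1
      exact ⟨⟨h1.2, he.2⟩, rfl, h1.1⟩
  rw [h, Finset.card_image_of_injective _ (fun x y hxy => (Prod.mk.inj hxy).1), Nat.card_Ioo]

lemma leg_rc {p q : ℕ} {e : ℕ × ℕ} (he : e ∈ rc p q) : leg (rc p q) e = q - e.2 - 1 := by
  rw [mem_rc] at he
  unfold leg
  have h : (rc p q).filter (fun f => f.1 = e.1 ∧ e.2 < f.2) =
      (Ioo e.2 q).image (fun j => (e.1, j)) := by
    ext ⟨i, j⟩
    rw [Finset.mem_filter, mem_rc, Finset.mem_image]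
    constructor
    · rintro ⟨⟨h1, h2⟩, h3, h4⟩
      exact ⟨j, Finset.mem_Ioo.2 ⟨h4, h2⟩, by simp only at h3; rw [h3]⟩
    · rintro ⟨i', h1, h2⟩
      rw [Prod.mk.injEq] at h2
      obtain ⟨rfl, rfl⟩ := h2
      rw [Finset.mem_Ioo] at h1
      exact ⟨⟨he.1, h1.2⟩, rfl, h1.1⟩
  rw [h, Finset.card_image_of_injective _ (fun x y hxy => (Prod.mk.inj hxy).2), Nat.card_Ioo]

/-- every box is below a corner -/
lemma exists_corner {s : Finset (ℕ × ℕ)} {e : ℕ × ℕ} (he : e ∈ s) :
    ∃ m ∈ s, e ≤ m ∧ arm s m = 0 ∧ leg s m = 0 := by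
  obtain ⟨m, h1, h2⟩ := s.exists_le_maximal he
  refine ⟨m, h2.1, h1, ?_, ?_⟩
  · unfold arm
    rw [Finset.card_eq_zero, Finset.filter_eq_empty_iff]
    rintro f hf ⟨h3, h4⟩
    have h5 : m ≤ f := ⟨h4.le, h3.ge⟩
    exact absurd (h2.2 hf h5).1 (not_le.2 h4)
  · unfold leg
    rw [Finset.card_eq_zero, Finset.filter_eq_empty_iff]
    rintro f hf ⟨h3, h4⟩
    have h5 : m ≤ f := ⟨h3.ge, h4.le⟩
    exact absurd (h2.2 hf h5).2 (not_le.2 h4)

/-- a diagram with one corner is a rectangle -/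
lemma eq_rc {s : Finset (ℕ × ℕ)} (hs : Lo s) {m : ℕ × ℕ} (hm : m ∈ s)
    (h : ∀ m' ∈ s, arm s m' = 0 → leg s m' = 0 → m' = m) : s = rc (m.1 + 1) (m.2 + 1) := by
  ext e
  rw [mem_rc]
  constructor
  · intro he
    obtain ⟨m', h1, h2, h3, h4⟩ := exists_corner he
    rw [h m' h1 h3 h4] at h2
    exact ⟨Nat.lt_succ_of_le h2.1, Nat.lt_succ_of_le h2.2⟩
  · rintro ⟨h1, h2⟩
    exact hs m.1 m.2 e.1 e.2 hm (Nat.le_of_lt_succ h1) (Nat.le_of_lt_succ h2)

section

variable {K : Type*} [Field K]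

private lemma tele1 (H : ℕ → ℕ → K) (hH : ∀ i j, H i j ≠ 0) (i q : ℕ) :
    ∏ j ∈ range q, (H i j * H (i + 1) (j + 1) / (H i (j + 1) * H (i + 1) j)) =
      H i 0 * H (i + 1) q / (H i q * H (i + 1) 0) := by
  induction q with
  | zero =>
    rw [Finset.prod_range_zero, div_self (mul_ne_zero (hH _ _) (hH _ _))]
  | succ q ih =>
    rw [Finset.prod_range_succ, ih]
    have h1 := hH i q
    have h2 := hH (i + 1) q
    have h3 := hH i (q + 1)
    have h4 := hH (i + 1) 0
    field_simp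

private lemma tele2 (H : ℕ → ℕ → K) (hH : ∀ i j, H i j ≠ 0) (p q : ℕ) :
    ∏ i ∈ range p, ∏ j ∈ range q, (H i j * H (i + 1) (j + 1) / (H i (j + 1) * H (i + 1) j)) =
      H 0 0 * H p q / (H 0 q * H p 0) := by
  induction p with
  | zero =>
    rw [Finset.prod_range_zero]
    have h1 := hH 0 q
    have h2 := hH 0 0
    field_simp
  | succ p ih =>
    rw [Finset.prod_range_succ, ih, tele1 H hH]
    have h1 := hH 0 q
    have h2 := hH p 0
    have h3 := hH p q
    have h4 := hH (p + 1) 0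
    field_simp

/-- the derivative of the weight at `-a` -/
lemma der_wp (a b : K) {s : Finset (ℕ × ℕ)} {m : ℕ × ℕ} (hm : m ∈ s) (h : W1 a b s m = a) :
    (Polynomial.derivative (wp a b s)).eval (-a) =
      (-a + W2 a b s m) * (W1 a b s m * W2 a b s m)⁻¹ *
      ∏ e ∈ s.erase m, ((-a + W1 a b s e) * (-a + W2 a b s e) * (W1 a b s e * W2 a b s e)⁻¹) := by
  unfold wp
  rw [← Finset.mul_prod_erase s _ hm, Polynomial.derivative_mul, Polynomial.derivative_mul,
    Polynomial.derivative_mul]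
  simp only [Polynomial.eval_add, Polynomial.eval_mul, Polynomial.eval_X, Polynomial.eval_C,
    Polynomial.derivative_add, Polynomial.derivative_X, Polynomial.derivative_C,
    Polynomial.eval_prod, Polynomial.eval_one, h, add_zero, neg_add_cancel, zero_mul, mul_zero,
    one_mul]

lemma der_wp_zero (a b : K) {s : Finset (ℕ × ℕ)} {m m' : ℕ × ℕ} (hm : m ∈ s)
    (h : W1 a b s m = a) (hm' : m' ∈ s) (h' : W1 a b s m' = a) (hne : m' ≠ m) :
    (Polynomial.derivative (wp a b s)).eval (-a) = 0 := by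
  rw [der_wp a b hm h, Finset.prod_eq_zero (Finset.mem_erase.2 ⟨hne, hm'⟩), mul_zero]
  rw [h', neg_add_cancel, zero_mul, zero_mul]

lemma W1_corner (a b : K) {s : Finset (ℕ × ℕ)} {m : ℕ × ℕ} (h1 : arm s m = 0) (h2 : leg s m = 0) :
    W1 a b s m = a := by
  unfold W1
  rw [h1, h2]
  push_cast
  ring

variable {a b : K} (hab : ∀ x y : ℤ, (x : K) * a + y * b = 0 → x = 0 ∧ y = 0)

include hab in
private lemma ab_ne {A B : ℕ} (h : ¬ (A = 0 ∧ B = 0)) : (A : K) * a - B * b ≠ 0 := by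
  intro h0
  have h1 := hab A (-B) (by push_cast; rw [← h0]; ring)
  exact h ⟨by exact_mod_cast h1.1, by have := h1.2; omega⟩

include hab in
/-- the derivative at a rectangle -/
lemma der_rc {p q : ℕ} (hp : 0 < p) (hq : 0 < q) :
    (Polynomial.derivative (wp a b (rc p q))).eval (-a) =
      ((q : K) * b - p * a) / ((p : K) * q * a * b) := by
  classical
  set s := rc p q with hs
  set H : ℕ → ℕ → K := fun i j => if p - i = 0 ∧ q - j = 0 then 1 else
    ((p - i : ℕ) : K) * a - ((q - j : ℕ) : K) * b with hH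
  have hH0 : ∀ i j, H i j ≠ 0 := by
    intro i j
    rw [hH]
    dsimp only
    split_ifs with h
    · exact one_ne_zero
    · exact ab_ne hab h
  have hm : (p - 1, q - 1) ∈ s := mem_rc.2 ⟨by simp only; omega, by simp only; omega⟩
  have hW : W1 a b s (p - 1, q - 1) = a := by
    apply W1_corner
    · rw [arm_rc hm]; simp only; omega
    · rw [leg_rc hm]; simp only; omega
  -- the weights in terms of `H`
  have k1 : ∀ e ∈ s, W1 a b s e = H e.1 (e.2 + 1) := by
    intro e he
    have h1 := mem_rc.1 he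
    unfold W1
    rw [arm_rc he, leg_rc he, hH]
    dsimp only
    rw [if_neg (by omega)]
    have e1 : ((p - e.1 - 1 : ℕ) : K) + 1 = ((p - e.1 : ℕ) : K) := by
      have : p - e.1 = p - e.1 - 1 + 1 := by omega
      rw [this, Nat.cast_add, Nat.cast_one]
      congr 2
    rw [e1]
    congr 3
  have k2 : ∀ e ∈ s, W2 a b s e = -H (e.1 + 1) e.2 := by
    intro e he
    have h1 := mem_rc.1 he
    unfold W2
    rw [arm_rc he, leg_rc he, hH]
    dsimp only
    rw [if_neg (by omega)]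
    have e1 : ((q - e.2 - 1 : ℕ) : K) + 1 = ((q - e.2 : ℕ) : K) := by
      have : q - e.2 = q - e.2 - 1 + 1 := by omega
      rw [this, Nat.cast_add, Nat.cast_one]
      congr 2
    have e2 : p - (e.1 + 1) = p - e.1 - 1 := by omega
    rw [e1, e2]
    ring
  have k3 : ∀ e ∈ s, -a + W2 a b s e = -H e.1 e.2 := by
    intro e he
    have h1 := mem_rc.1 he
    unfold W2
    rw [arm_rc he, leg_rc he, hH]
    dsimp only
    rw [if_neg (by omega)]
    have e1 : ((q - e.2 - 1 : ℕ) : K) + 1 = ((q - e.2 : ℕ) : K) := by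
      have : q - e.2 = q - e.2 - 1 + 1 := by omega
      rw [this, Nat.cast_add, Nat.cast_one]
      congr 2
    have e2 : ((p - e.1 : ℕ) : K) = ((p - e.1 - 1 : ℕ) : K) + 1 := by
      have : p - e.1 = p - e.1 - 1 + 1 := by omega
      rw [this, Nat.cast_add, Nat.cast_one]
      congr 2
    rw [e1, e2]
    ring
  have k4 : ∀ e ∈ s, e ≠ (p - 1, q - 1) → -a + W1 a b s e = H (e.1 + 1) (e.2 + 1) := by
    intro e he hne
    have h1 := mem_rc.1 he
    have h2 : ¬ (p - (e.1 + 1) = 0 ∧ q - (e.2 + 1) = 0) := by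
      rintro ⟨h3, h4⟩
      apply hne
      ext
      · simp only; omega
      · simp only; omega
    unfold W1
    rw [arm_rc he, leg_rc he, hH]
    dsimp only
    rw [if_neg h2]
    have e2 : p - (e.1 + 1) = p - e.1 - 1 := by omega
    have e3 : q - (e.2 + 1) = q - e.2 - 1 := by omega
    rw [e2, e3]
    ring
  have k5 : H (p - 1 + 1) (q - 1 + 1) = 1 := by
    rw [hH]
    dsimp only
    rw [if_pos (by omega)]
  rw [der_wp a b hm hW]
  have key : (-a + W2 a b s (p - 1, q - 1)) *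
      (W1 a b s (p - 1, q - 1) * W2 a b s (p - 1, q - 1))⁻¹ *
      ∏ e ∈ s.erase (p - 1, q - 1), ((-a + W1 a b s e) * (-a + W2 a b s e) *
        (W1 a b s e * W2 a b s e)⁻¹) =
      ∏ e ∈ s, (H e.1 e.2 * H (e.1 + 1) (e.2 + 1) / (H e.1 (e.2 + 1) * H (e.1 + 1) e.2)) := by
    rw [← Finset.mul_prod_erase s _ hm]
    congr 1
    · rw [k3 _ hm, k1 _ hm, k2 _ hm]
      simp only
      rw [k5]
      have h1 := hH0 (p - 1) (q - 1 + 1)
      have h2 := hH0 (p - 1 + 1) (q - 1)
      field_simp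
    · apply Finset.prod_congr rfl
      intro e he
      have h0 := Finset.mem_erase.1 he
      rw [k3 _ h0.2, k1 _ h0.2, k2 _ h0.2]
      have h3 := k4 _ h0.2 h0.1
      rw [k1 _ h0.2] at h3
      rw [h3]
      have h1 := hH0 e.1 (e.2 + 1)
      have h2 := hH0 (e.1 + 1) e.2
      field_simp
  rw [key, hs]
  unfold rc
  rw [Finset.prod_product]
  simp only
  rw [tele2 H hH0]
  have q1 : H 0 0 = (p : K) * a - q * b := by
    rw [hH]
    dsimp only
    rw [if_neg (by omega), Nat.sub_zero, Nat.sub_zero]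
  have q2 : H p q = 1 := by
    rw [hH]
    dsimp only
    rw [if_pos (by omega)]
  have q3 : H 0 q = (p : K) * a := by
    rw [hH]
    dsimp only
    rw [if_neg (by omega), Nat.sub_zero, Nat.sub_self]
    push_cast
    ring
  have q4 : H p 0 = -((q : K) * b) := by
    rw [hH]
    dsimp only
    rw [if_neg (by omega), Nat.sub_zero, Nat.sub_self]
    push_cast
    ring
  have n1 := hH0 0 q
  have n2 := hH0 p 0
  rw [q3] at n1
  rw [q4] at n2
  rw [q1, q2, q3, q4]
  have m1 : (p : K) ≠ 0 := left_ne_zero_of_mul n1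
  have m2 : a ≠ 0 := right_ne_zero_of_mul n1
  have m3 : (q : K) ≠ 0 := left_ne_zero_of_mul (neg_ne_zero.1 n2)
  have m4 : b ≠ 0 := right_ne_zero_of_mul (neg_ne_zero.1 n2)
  field_simp
  ring

include hab in
/-- reduction to rectangles -/
theorem qs_der (ψ : Finset (ℕ × ℕ) → K) :
    qs (fun s => (Polynomial.derivative (wp a b s)).eval (-a) * ψ s) =
      PowerSeries.mk fun n => ∑ y ∈ n.divisorsAntidiagonal,
        ((y.2 : K) * b - y.1 * a) / ((y.1 : K) * y.2 * a * b) * ψ (rc y.1 y.2) := by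
  classical
  ext n
  unfold qs
  rw [coeff_mk, coeff_mk]
  have h1 : ∑ y ∈ n.divisorsAntidiagonal,
      ((y.2 : K) * b - y.1 * a) / ((y.1 : K) * y.2 * a * b) * ψ (rc y.1 y.2) =
      ∑ s ∈ n.divisorsAntidiagonal.image (fun y => rc y.1 y.2),
        (Polynomial.derivative (wp a b s)).eval (-a) * ψ s := by
    rw [Finset.sum_image]
    · apply Finset.sum_congr rfl
      intro y hy
      have h2 := Nat.mem_divisorsAntidiagonal.1 hy
      have h3 : 0 < y.1 := Nat.pos_of_ne_zero fun h => h2.2 (by rw [← h2.1, h, zero_mul])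
      have h4 : 0 < y.2 := Nat.pos_of_ne_zero fun h => h2.2 (by rw [← h2.1, h, mul_zero])
      rw [der_rc hab h3 h4]
    · intro y hy y' hy' hyy
      have h2 := Nat.mem_divisorsAntidiagonal.1 (Finset.mem_coe.1 hy)
      have h2' := Nat.mem_divisorsAntidiagonal.1 (Finset.mem_coe.1 hy')
      have h3 : 0 < y.1 := Nat.pos_of_ne_zero fun h => h2.2 (by rw [← h2.1, h, zero_mul])
      have h4 : 0 < y.2 := Nat.pos_of_ne_zero fun h => h2.2 (by rw [← h2.1, h, mul_zero])
      have h3' : 0 < y'.1 := Nat.pos_of_ne_zero fun h => h2'.2 (by rw [← h2'.1, h, zero_mul])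
      have h4' : 0 < y'.2 := Nat.pos_of_ne_zero fun h => h2'.2 (by rw [← h2'.1, h, mul_zero])
      have h5 : rc y.1 y.2 = rc y'.1 y'.2 := hyy
      have a1 : (y.1 - 1, y.2 - 1) ∈ rc y'.1 y'.2 := by
        rw [← h5]
        exact mem_rc.2 ⟨by simp only; omega, by simp only; omega⟩
      have a2 : (y'.1 - 1, y'.2 - 1) ∈ rc y.1 y.2 := by
        rw [h5]
        exact mem_rc.2 ⟨by simp only; omega, by simp only; omega⟩
      rw [mem_rc] at a1 a2
      simp only at a1 a2
      ext <;> omega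
  rw [h1]
  symm
  apply Finset.sum_subset
  · intro s hs
    rw [Finset.mem_image] at hs
    obtain ⟨y, hy, rfl⟩ := hs
    rw [mem_dg]
    exact ⟨Lo_rc _ _, by rw [card_rc]; exact (Nat.mem_divisorsAntidiagonal.1 hy).1⟩
  · intro s hs hn
    rw [mem_dg] at hs
    rcases Finset.eq_empty_or_nonempty s with h0 | ⟨e, he⟩
    · rw [h0, wp_empty, Polynomial.derivative_one, Polynomial.eval_zero, zero_mul]
    · obtain ⟨m, hm, _, h3, h4⟩ := exists_corner he
      by_cases hu : ∀ m' ∈ s, arm s m' = 0 → leg s m' = 0 → m' = m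
      · exfalso
        apply hn
        rw [Finset.mem_image]
        refine ⟨(m.1 + 1, m.2 + 1), ?_, (eq_rc hs.1 hm hu).symm⟩
        rw [Nat.mem_divisorsAntidiagonal]
        have h5 := congrArg Finset.card (eq_rc hs.1 hm hu)
        rw [card_rc, hs.2] at h5
        refine ⟨h5.symm, ?_⟩
        rw [h5]
        exact Nat.mul_ne_zero (Nat.succ_ne_zero _) (Nat.succ_ne_zero _)
      · push Not at hu
        obtain ⟨m', h5, h6, h7, h8⟩ := hu
        rw [der_wp_zero a b hm (W1_corner a b h3 h4) h5 (W1_corner a b h6 h7) h8, zero_mul]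

end

end MPa7fa83.Lw
end
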