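import Pool.Agent.Lib.MP_a7fa83_ag.Lw.W2
import Pool.Agent.Lib.MP_a7fa83_ag.Cs.L4
import Pool.Agent.Lib.MP_a7fa83_ag.Cs.H4
import Pool.Agent.Lib.MP_a7fa83_ag.Lw.W5
import Pool.Agent.Lib.MP_a7fa83_ag.Cs.L5

section

section

/-!
# W8: the uniform measure

The moments of `ch_k` for the uniform measure on diagrams are in the span of q-zeta values, hence so
are the logarithmic derivatives of the generating series.
-/

set_option autoImplicit false

namespace MPa7fa83.Lw

open Finset PowerSeries MPa7fa83.Cs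
open MPa7fa83.Ok hiding rs

section

variable {K : Type*} [Field K] [CharZero K]

/-- the span of the statistics whose length is allowed for `n` -/
noncomputable def Bff (p : Bool) (n : ℕ) : Submodule K (List Bool → K) :=
  Submodule.span K {f | ∃ m, okb p m n ∧ f ∈ Bn K m}

lemma Bff_mul {p : Bool} {m n : ℕ} {f g : List Bool → K} (hf : f ∈ Bff p m) (hg : g ∈ Bff p n) :
    f * g ∈ Bff p (m + n) := by
  unfold Bff at hf
  induction hf using Submodule.span_induction with
  | mem x hx =>
    obtain ⟨i, h1, hx'⟩ := hx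
    unfold Bff at hg
    induction hg using Submodule.span_induction with
    | mem y hy =>
      obtain ⟨j, h2, hy'⟩ := hy
      exact Submodule.subset_span ⟨i + j, (okb_rel p).add h1 h2, Bn_mul hx' hy'⟩
    | zero => rw [mul_zero]; exact zero_mem _
    | add x y _ _ hx hy => rw [mul_add]; exact add_mem hx hy
    | smul c x _ hx => rw [mul_smul_comm]; exact Submodule.smul_mem _ _ hx
  | zero => rw [zero_mul]; exact zero_mem _
  | add x y _ _ hx hy => rw [add_mul]; exact add_mem hx hy
  | smul c x _ hx => rw [smul_mul_assoc]; exact Submodule.smul_mem _ _ hx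

lemma one_mem_Bff {p : Bool} : (1 : List Bool → K) ∈ Bff p 0 :=
  Submodule.subset_span ⟨0, (okb_rel p).zero, one_mem_Bn⟩

lemma EL_Bff {p : Bool} {n : ℕ} {f : List Bool → K} (hf : f ∈ Bff p n) :
    ∃ G ∈ qM K (okb p) n, EL f = EL 1 * G := by
  unfold Bff at hf
  induction hf using Submodule.span_induction with
  | mem x hx =>
    obtain ⟨m, h1, hx'⟩ := hx
    exact EL_mem (okb_rel p) h1 hx'
  | zero => exact ⟨0, zero_mem _, by rw [EL_zero, mul_zero]⟩
  | add x y _ _ hx hy =>
    obtain ⟨G, hG, e⟩ := hx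
    obtain ⟨G', hG', e'⟩ := hy
    exact ⟨G + G', add_mem hG hG', by rw [EL_add, e, e', mul_add]⟩
  | smul c x _ hx =>
    obtain ⟨G, hG, e⟩ := hx
    exact ⟨c • G, Submodule.smul_mem _ _ hG, by rw [EL_smul, e, mul_smul_comm]⟩

lemma chb_mem {p : Bool} {a b l : K} (hp : p = true → 2 * l = a + b) (k : ℕ) :
    chb l (-a) (-b) k ∈ Bff (K := K) p (k + 2) := by
  have e : chb l (-a) (-b) k = ∑ k' ∈ range (k + 1), chp l (-a) (-b) k k' := by
    funext β
    rw [Finset.sum_apply]
    exact chb_eq l (-a) (-b) k β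
  rw [e]
  refine Submodule.sum_mem _ fun k' hk' => ?_
  have h := Finset.mem_range.1 hk'
  cases p
  · exact Submodule.subset_span ⟨k' + 2, show k' + 2 ≤ k + 2 by omega, chp_mem _ _ _ _ _⟩
  · rcases Nat.lt_succ_iff_lt_or_eq.1 h with h2 | h2
    · have e2 : chp l (-a) (-b) k k' = 0 := by
        funext β
        exact chp_eq_zero (by rw [hp rfl]; ring) h2 β
      rw [e2]
      exact Submodule.zero_mem _
    · subst h2
      exact Submodule.subset_span ⟨k' + 2, ⟨0, rfl⟩, chp_mem _ _ _ _ _⟩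

lemma monb_mem {p : Bool} {a b l : K} (hp : p = true → 2 * l = a + b) (I : ℕ →₀ ℕ) :
    (fun β => mon (fun k => chb l (-a) (-b) k β) I) ∈ Bff (K := K) p (Cs.wt I) := by
  induction I using Finsupp.induction_linear with
  | zero =>
    simp only [mon_zero]
    rw [wt_zero']
    exact one_mem_Bff
  | add I J hI hJ =>
    rw [wt_add]
    have h := Bff_mul hI hJ
    have e : (fun β => mon (fun k => chb l (-a) (-b) k β) (I + J)) =
        (fun β => mon (fun k => chb l (-a) (-b) k β) I) *
        (fun β => mon (fun k => chb l (-a) (-b) k β) J) := by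
      funext β
      rw [Pi.mul_apply, mon_add]
    rw [e]
    exact h
  | single k m =>
    rw [wt_single]
    simp only [mon_single]
    induction m with
    | zero =>
      simp only [pow_zero, zero_mul]
      exact one_mem_Bff
    | succ m ih =>
      have h := Bff_mul ih (chb_mem (p := p) hp k)
      rw [show (m + 1) * (k + 2) = m * (k + 2) + (k + 2) by ring]
      have e : (fun β => chb l (-a) (-b) k β ^ (m + 1)) =
          (fun β => chb l (-a) (-b) k β ^ m) * chb l (-a) (-b) k := by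
        funext β
        rw [Pi.mul_apply, pow_succ]
      rw [e]
      exact h

omit [CharZero K] in
private lemma sum_boxes {n : ℕ} (p : n.Partition) (φ : ℕ × ℕ → K) :
    ∑ e ∈ cel p, φ e = ∑ i ∈ range n, ∑ j ∈ range (pcol p i), φ (i, j) := by
  unfold cel
  rw [Finset.sum_filter, Finset.sum_product]
  apply Finset.sum_congr rfl
  intro i _
  have h : pcol p i ≤ n := by
    by_contra h
    push Not at h
    have h2 := (mem_cel p (e := (i, n))).2 h
    unfold cel at h2
    simp at h2
  rw [← Finset.sum_filter]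
  apply Finset.sum_congr
  · ext j
    simp only [Finset.mem_filter, Finset.mem_range]
    constructor
    · exact fun h' => h'.2
    · exact fun h' => ⟨lt_of_lt_of_le h' h, h'⟩
  · intro j _
    rfl

lemma chb_cel (a b l : K) (k : ℕ) {n : ℕ} (p : n.Partition) :
    chb l (-a) (-b) k (bd p.parts n) = chs l a b k (cel p) := by
  unfold chb chs
  rw [bs_bd _ p.parts n n (fun i hi => p.parts_pos hi) (fun i hi => p.le_of_mem_parts hi)
    (fun i hi => p.le_of_mem_parts hi), sum_boxes]
  apply Finset.sum_congr rfl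
  intro i _
  apply Finset.sum_congr rfl
  intro j _
  unfold Cs.cn
  rw [Algebra.smul_def]
  congr 2
  ring

/-- moments of the uniform measure -/
theorem uni_mom {p : Bool} {a b l : K} (hp : p = true → 2 * l = a + b) (I : ℕ →₀ ℕ) :
    ∃ G ∈ qM K (okb p) (Cs.wt I),
      MvPowerSeries.coeff I (ZR (fun _ => (1 : K)) (fun k s => chs l a b k s)) =
        MvPowerSeries.coeff 0 (ZR (fun _ => (1 : K)) (fun k s => chs l a b k s)) * G := by
  obtain ⟨G, hG, e⟩ := EL_Bff (monb_mem (p := p) hp I)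
  refine ⟨algebraMap ℚ K ((dfac I : ℚ)⁻¹) • G, Submodule.smul_mem _ _ hG, ?_⟩
  have e1 : EL (fun β => mon (fun k => chb l (-a) (-b) k β) I) =
      qs (fun s => mon (fun k => chs l a b k s) I) := by
    ext n
    unfold EL qs
    rw [coeff_mk, coeff_mk, ← sum_cel]
    apply Finset.sum_congr rfl
    intro q _
    simp only [chb_cel]
  have e2 : EL (1 : List Bool → K) =
      MvPowerSeries.coeff 0 (ZR (fun _ => (1 : K)) (fun k s => chs l a b k s)) := by
    rw [coeff_ZR]
    ext n
    unfold EL qs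
    rw [coeff_mk, coeff_mk, ← sum_cel]
    apply Finset.sum_congr rfl
    intro q _
    rw [sr_zero, mul_one]
    rfl
  rw [← e2, mul_smul_comm, ← e, e1, coeff_ZR, PowerSeries.smul_eq_C_mul, ← qs_smul]
  congr 1
  funext s
  unfold sr
  rw [one_mul]

/-- from moments to logarithmic derivatives -/
theorem ld_of_mom {p : Bool} {Z : MvPowerSeries ℕ K⟦X⟧} (hZ : IsUnit Z)
    (h : ∀ I : ℕ →₀ ℕ, ∃ G ∈ qM K (okb p) (Cs.wt I),
      MvPowerSeries.coeff I Z = MvPowerSeries.coeff 0 Z * G) (k : ℕ) (I : ℕ →₀ ℕ) :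
    MvPowerSeries.coeff I (ld Z k) ∈ qM K (okb p) (k + 2 + Cs.wt I) := by
  classical
  choose G hG e using h
  have hu : IsUnit (MvPowerSeries.coeff 0 Z) := by
    rw [MvPowerSeries.isUnit_iff_constantCoeff] at hZ
    rw [MvPowerSeries.coeff_zero_eq_constantCoeff_apply]
    exact hZ
  have hG0 : G 0 = 1 := by
    have := e 0
    exact hu.mul_left_cancel (by rw [mul_one]; exact this.symm)
  suffices H : ∀ (n : ℕ) (I : ℕ →₀ ℕ), num I = n →
      MvPowerSeries.coeff I (ld Z k) ∈ qM K (okb p) (k + 2 + Cs.wt I) from H _ I rfl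
  intro n
  induction n using Nat.strong_induction_on with
  | _ n ih =>
    intro I hI
    have h1 := congrArg (MvPowerSeries.coeff I) (ld_mul hZ k)
    rw [MvPowerSeries.coeff_mul, MvPowerSeries.coeff_pderiv, e (I + Finsupp.single k 1)] at h1
    have h2 : MvPowerSeries.coeff 0 Z * ∑ x ∈ antidiagonal I,
        MvPowerSeries.coeff x.1 (ld Z k) * G x.2 =
        MvPowerSeries.coeff 0 Z * (G (I + Finsupp.single k 1) * ((I k : K⟦X⟧) + 1)) := by
      rw [Finset.mul_sum, ← mul_assoc, ← h1]
      apply Finset.sum_congr rfl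
      intro x _
      rw [e x.2]
      ring
    have h3 := hu.mul_left_cancel h2
    have hmem : (I, (0 : ℕ →₀ ℕ)) ∈ antidiagonal I := by
      rw [Finset.HasAntidiagonal.mem_antidiagonal, add_zero]
    rw [← Finset.add_sum_erase _ _ hmem, hG0, mul_one] at h3
    have h4 : MvPowerSeries.coeff I (ld Z k) =
        G (I + Finsupp.single k 1) * ((I k : K⟦X⟧) + 1) -
        ∑ x ∈ (antidiagonal I).erase (I, 0), MvPowerSeries.coeff x.1 (ld Z k) * G x.2 := by
      rw [← h3]
      ring
    rw [h4]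
    refine Submodule.sub_mem _ ?_ (Submodule.sum_mem _ fun x hx => ?_)
    · have h5 : ((I k : K⟦X⟧) + 1) = C ((I k : K) + 1) := by
        rw [map_add, map_natCast, map_one]
      rw [h5, mul_comm, ← PowerSeries.smul_eq_C_mul]
      apply Submodule.smul_mem
      have h6 := hG (I + Finsupp.single k 1)
      rw [wt_add, wt_single, one_mul] at h6
      rwa [add_comm]
    · have hx1 := Finset.mem_erase.1 hx
      have hx2 := Finset.HasAntidiagonal.mem_antidiagonal.1 hx1.2
      have hx3 : x.2 ≠ 0 := by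
        intro h0
        apply hx1.1
        rw [h0, add_zero] at hx2
        exact Prod.ext hx2 h0
      have hn : num x.1 < n := by
        rw [← hI, ← hx2, num_add]
        have : 0 < num x.2 := by
          rw [Nat.pos_iff_ne_zero]
          intro h0
          apply hx3
          ext j
          unfold num Finsupp.sum at h0
          rw [Finset.sum_eq_zero_iff] at h0
          by_contra hj
          exact hj (h0 j (Finsupp.mem_support_iff.2 hj))
        omega
      have h7 := qM_mul (okb_rel p) (ih _ hn x.1 rfl) (hG x.2)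
      rwa [add_assoc, ← wt_add, hx2] at h7

/-- the uniform measure -/
theorem uni_ld {p : Bool} {a b l : K} (hp : p = true → 2 * l = a + b) (k : ℕ) (I : ℕ →₀ ℕ) :
    MvPowerSeries.coeff I (ld (ZR (fun _ => (1 : K)) (fun k s => chs l a b k s)) k) ∈
      qM K (okb p) (k + 2 + deg I + 2 * num I) := by
  have h := ld_of_mom (ZR_unit rfl (fun k s => chs l a b k s)) (uni_mom hp) k I
  rwa [wt_eq, ← add_assoc] at h

/-- the weights `0` and `-a-b` of `M` give the uniform measure -/
theorem NF_uni {p : Bool} {a b : K} (hab : ∀ x y : ℤ, (x : K) * a + y * b = 0 → x = 0 ∧ y = 0)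
    {l c : K} (hc : c = 0 ∨ c = -a - b) (hp : p = true → 2 * l = a + b) (k : ℕ) (I : ℕ →₀ ℕ) :
    NF a b c l k I ∈ qM K (okb p) (k + 2 + deg I + 2 * num I) := by
  have e : wg a b c = fun _ => 1 := by
    funext s
    unfold wg
    apply Finset.prod_eq_one
    intro e _
    have h1 : W1 a b s e ≠ 0 := by
      intro h0
      unfold W1 at h0
      have h2 := hab ((arm s e : ℤ) + 1) (-(leg s e : ℤ)) (by push_cast; rw [← h0]; ring)
      omega
    have h2 : W2 a b s e ≠ 0 := by
      intro h0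
      unfold W2 at h0
      have h2 := hab (-(arm s e : ℤ)) ((leg s e : ℤ) + 1) (by push_cast; rw [← h0]; ring)
      omega
    rw [div_eq_one_iff_eq (mul_ne_zero h1 h2)]
    rcases hc with hc | hc
    · rw [hc, zero_add, zero_add]
    · rw [hc]
      unfold W1 W2
      ring
  unfold NF
  rw [e, ← PowerSeries.smul_eq_C_mul]
  exact Submodule.smul_mem _ _ (uni_ld hp k I)

end

end MPa7fa83.Lw
end

section

/-!
# W4: the series `SE i j` with `i ≠ j`

`SE i j ∈ QP (i + j + 1)` for `i ≠ j`: `SE 0 J` is the sum over `d` of the combinations of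
`fl j d`, `j + 1 + 2 k = J`, with coefficients `h ^ J` at `q^{h d}`; `SE (n + 1) (J + 1) = DD (SE n J)`.
-/

set_option autoImplicit false

namespace MPa7fa83.Lw

open Finset PowerSeries MPa7fa83.Cs

private lemma coeff_ys (d N : ℕ) (hd : 1 ≤ d) :
    coeff N (ys d) = if d ∣ N then (1 : ℚ) else 0 := by
  have h1 := ys_mul d hd
  have h2 : (PowerSeries.mk (fun N => if d ∣ N then (1 : ℚ) else 0)) * (1 - X ^ d) = 1 := by
    ext N
    rw [mul_sub, mul_one, map_sub, coeff_mk, coeff_mul_X_pow', coeff_one]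
    by_cases hN : d ≤ N
    · rw [if_pos hN, coeff_mk, if_neg (by omega : ¬ N = 0)]
      have : d ∣ N - d ↔ d ∣ N := by
        constructor
        · intro h
          have := Nat.dvd_add h (dvd_refl d)
          rwa [Nat.sub_add_cancel hN] at this
        · intro h
          exact Nat.dvd_sub h (dvd_refl d)
      by_cases hdN : d ∣ N
      · rw [if_pos hdN, if_pos (this.2 hdN), sub_self]
      · rw [if_neg hdN, if_neg (fun h => hdN (this.1 h)), sub_self]
    · rw [if_neg hN, sub_zero]
      by_cases hN0 : N = 0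
      · subst hN0; simp
      · rw [if_neg hN0, if_neg]
        intro h
        exact hN (Nat.le_of_dvd (by omega) h)
  have h3 : ys d = PowerSeries.mk (fun N => if d ∣ N then (1 : ℚ) else 0) := by
    calc ys d = ys d * ((PowerSeries.mk (fun N => if d ∣ N then (1 : ℚ) else 0)) * (1 - X ^ d)) := by
          rw [h2, mul_one]
      _ = (ys d * (1 - X ^ d)) * PowerSeries.mk (fun N => if d ∣ N then (1 : ℚ) else 0) := by ring
      _ = _ := by rw [h1, one_mul]
  rw [h3, coeff_mk]

private lemma coeff_fl0 (d N : ℕ) (hd : 1 ≤ d) :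
    coeff N (fl 0 d) = if d ∣ N then ((N / d : ℕ) : ℚ) ^ 1 else 0 := by
  have h1 := DD_ys d hd
  have h2 : ys d * (ys d - 1) = fl 0 d := by
    rw [fl_zero]
    unfold xs
    have h3 := two_hf
    linear_combination (ys d) * h3
  rw [h2] at h1
  have h3 := congrArg (coeff N) h1
  rw [coeff_DD, coeff_ys d N hd] at h3
  have h4 : coeff N ((d : ℚ⟦X⟧) * fl 0 d) = (d : ℚ) * coeff N (fl 0 d) := by
    rw [show (d : ℚ⟦X⟧) = C (d : ℚ) by rw [map_natCast], coeff_C_mul]
  rw [h4] at h3
  have hd' : (d : ℚ) ≠ 0 := by exact_mod_cast (by omega : d ≠ 0)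
  by_cases hdN : d ∣ N
  · rw [if_pos hdN] at h3 ⊢
    rw [Nat.cast_div hdN hd', pow_one, eq_div_iff hd']
    linarith
  · rw [if_neg hdN] at h3 ⊢
    rw [mul_zero] at h3
    rcases mul_eq_zero.1 h3.symm with h | h
    · exact absurd h hd'
    · exact h

/-- the span of `fl j`, `j + 1 + 2 k = J` -/
private noncomputable def Qm (J : ℕ) : Submodule ℚ Sq :=
  Submodule.span ℚ {F | ∃ j, (∃ k, j + 1 + 2 * k = J) ∧ F = fl j}

private lemma Qm_step {J : ℕ} {G : Sq} (hG : G ∈ Qm J) :
    ∃ G' ∈ Qm (J + 1), ∀ d, 1 ≤ d → DD (G d) = C (d : ℚ) * G' d := by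
  unfold Qm at hG
  induction hG using Submodule.span_induction with
  | mem x hx =>
    obtain ⟨j, ⟨k, hk⟩, rfl⟩ := hx
    refine ⟨dfs j, ?_, fun d hd => ?_⟩
    · unfold dfs
      refine sub_mem (Submodule.smul_mem _ _ (Submodule.subset_span ⟨j + 1, ⟨k, by omega⟩, rfl⟩)) ?_
      rcases j with _ | j
      · simp
      · exact Submodule.smul_mem _ _ (Submodule.subset_span ⟨j, ⟨k + 1, by omega⟩, rfl⟩)
    · rw [DD_fl _ _ hd, map_natCast]
  | zero => exact ⟨0, zero_mem _, fun d _ => by simp⟩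
  | add x y _ _ hx hy =>
    obtain ⟨x', hx1, hx2⟩ := hx
    obtain ⟨y', hy1, hy2⟩ := hy
    refine ⟨x' + y', add_mem hx1 hy1, fun d hd => ?_⟩
    rw [Pi.add_apply, map_add, hx2 d hd, hy2 d hd, Pi.add_apply, mul_add]
  | smul c x _ hx =>
    obtain ⟨x', hx1, hx2⟩ := hx
    refine ⟨c • x', Submodule.smul_mem _ _ hx1, fun d hd => ?_⟩
    rw [Pi.smul_apply, Derivation.map_smul, hx2 d hd, Pi.smul_apply, mul_smul_comm]

private lemma exists_G (J : ℕ) : ∃ G ∈ Qm (J + 1), ∀ d, 1 ≤ d → ∀ N,
    coeff N (G d) = if d ∣ N then ((N / d : ℕ) : ℚ) ^ (J + 1) else 0 := by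
  induction J with
  | zero =>
    refine ⟨fl 0, Submodule.subset_span ⟨0, ⟨0, rfl⟩, rfl⟩, ?_⟩
    intro d hd N
    rw [coeff_fl0 d N hd]
  | succ J ih =>
    obtain ⟨G, hG, h⟩ := ih
    obtain ⟨G', hG', h'⟩ := Qm_step hG
    refine ⟨G', hG', ?_⟩
    intro d hd N
    have h1 := congrArg (coeff N) (h' d hd)
    rw [coeff_DD, h d hd N, coeff_C_mul] at h1
    have hd' : (d : ℚ) ≠ 0 := by exact_mod_cast (by omega : d ≠ 0)
    by_cases hdN : d ∣ N
    · rw [if_pos hdN] at h1 ⊢
      have e : ((N / d : ℕ) : ℚ) * d = N := by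
        rw [Nat.cast_div hdN hd']
        field_simp
      have h2 : (d : ℚ) * coeff N (G' d) =
          (d : ℚ) * ((N / d : ℕ) : ℚ) ^ (J + 1 + 1) := by
        rw [← h1, ← e]
        have : ((((N / d : ℕ) : ℚ) * d) : ℚ) = ((N / d : ℕ) : ℚ) * d := rfl
        ring
      exact mul_left_cancel₀ hd' h2
    · rw [if_neg hdN] at h1 ⊢
      rw [mul_zero] at h1
      rcases mul_eq_zero.1 h1.symm with h | h
      · exact absurd h hd'
      · exact h

private lemma S_Qm {J : ℕ} {G : Sq} (hG : G ∈ Qm J) : S G ∈ W (J + 1) := by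
  unfold Qm at hG
  induction hG using Submodule.span_induction with
  | mem x hx =>
    obtain ⟨j, ⟨k, hk⟩, rfl⟩ := hx
    have h : S (fl j) = wseq [j] := by
      rw [wseq_cons, wseq_nil, mul_one]
    rw [h]
    exact wseq_mem ⟨k, by simp; omega⟩
  | zero => rw [S_zero]; exact zero_mem _
  | add x y _ _ hx hy => rw [S_add]; exact add_mem hx hy
  | smul c x _ hx => rw [S_smul]; exact Submodule.smul_mem _ _ hx

/-- the base case, all parities -/
theorem SE_zero (J : ℕ) : SE 0 (J + 1) ∈ QP (J + 2) := by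
  obtain ⟨G, hG, h⟩ := exists_G J
  have h1 := lim_WZ (W_le_WZ (S_Qm hG))
  have e : SE 0 (J + 1) = lim (S G) := by
    ext N
    rw [lim_apply]
    unfold SE S
    rw [coeff_mk, map_sum]
    simp only [pow_zero, one_mul]
    rw [Nat.sum_divisorsAntidiagonal (fun _ b => (b : ℚ) ^ (J + 1)), Nat.divisors,
      Finset.sum_filter]
    apply Finset.sum_congr
    · ext x
      simp only [Finset.mem_Ico]
    · intro d hd
      rw [h d (Finset.mem_Ico.1 hd).1 N]
  rw [e]
  exact h1

private lemma SE_succ (n J : ℕ) : SE (n + 1) (J + 1) = DD (SE n J) := by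
  ext N
  rw [coeff_DD]
  unfold SE
  rw [coeff_mk, coeff_mk, Finset.mul_sum]
  apply Finset.sum_congr rfl
  intro y hy
  have h := (Nat.mem_divisorsAntidiagonal.1 hy).1
  rw [← h]
  push_cast
  ring

lemma SE_symm (n J : ℕ) : SE n J = SE J n := by
  ext N
  unfold SE
  rw [coeff_mk, coeff_mk]
  conv_lhs => rw [← Nat.map_swap_divisorsAntidiagonal]
  rw [Finset.sum_map]
  apply Finset.sum_congr rfl
  intro y _
  simp [mul_comm]

private lemma SE_iter (n J a : ℕ) {w : ℕ} (h : SE n J ∈ QP w) :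
    SE (n + a) (J + a) ∈ QP (w + 2 * a) := by
  induction a with
  | zero => simpa using h
  | succ a ih =>
    rw [← add_assoc, ← add_assoc, SE_succ]
    have := DD_QP ih
    rwa [show w + 2 * (a + 1) = w + 2 * a + 2 by ring]

private lemma SE_lt {i j : ℕ} (h : i < j) : SE i j ∈ QP (i + j + 1) := by
  have h1 := SE_iter 0 (j - i - 1 + 1) i (SE_zero (j - i - 1))
  rw [zero_add, show j - i - 1 + 1 + i = j by omega,
    show j - i - 1 + 2 + 2 * i = i + j + 1 by omega] at h1
  exact h1

/-- off-diagonal Eisenstein series -/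
theorem SE_ne {i j : ℕ} (h : i ≠ j) : SE i j ∈ QP (i + j + 1) := by
  rcases lt_or_gt_of_ne h with h1 | h1
  · exact SE_lt h1
  · rw [SE_symm, add_comm i j]
    exact SE_lt h1

end MPa7fa83.Lw
end
end

section

section

/-!
# W6: sums over rectangles

`a b ch_k` of a `p × q` rectangle is a symmetric polynomial in `x = p a`, `y = q b`, divisible by
`x y`; with the factor `(y - x) / (x y)` the sum over all rectangles is a combination of the series
`SE i j`, `i ≠ j`.
-/

set_option autoImplicit false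

namespace MPa7fa83.Lw

open Finset PowerSeries MPa7fa83.Cs
open MPa7fa83.Ok hiding rs

section

variable {K : Type*} [Field K] [CharZero K]

private lemma ex_eq (a : K) : ex a = 1 + C a * (X * rs a) := by
  ext i
  rw [coeff_ex]
  rcases i with _ | i
  · simp
  · rw [map_add, coeff_C_mul, coeff_succ_X_mul, coeff_one, if_neg (Nat.succ_ne_zero i), zero_add]
    unfold rs
    rw [coeff_mk, pow_succ]
    ring

private lemma rs_const (a : K) : constantCoeff (rs a) = 1 := by
  rw [← coeff_zero_eq_constantCoeff_apply]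
  unfold rs
  rw [coeff_mk]
  simp

private lemma rs_ne (a : K) : rs a ≠ 0 := by
  intro h
  have := rs_const a
  rw [h, map_zero] at this
  exact zero_ne_one this

/-- the prefactor -/
private noncomputable def VV (a b l : K) : K⟦X⟧ := ex l * (rs a * rs b)⁻¹

private lemma VV_mul (a b l : K) : VV a b l * (rs a * rs b) = ex l := by
  unfold VV
  rw [mul_assoc, PowerSeries.inv_mul_cancel, mul_one]
  rw [map_mul, rs_const, rs_const, mul_one]
  exact one_ne_zero

private lemma geo (a : K) (P : ℕ) :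
    C a * rs a * ∑ i ∈ range P, ex ((i : K) * a) = C ((P : K) * a) * rs ((P : K) * a) := by
  have h1 : (ex a - 1) * ∑ i ∈ range P, ex ((i : K) * a) = ex ((P : K) * a) - 1 := by
    rw [Finset.mul_sum]
    have h2 : ∀ i ∈ range P, (ex a - 1) * ex ((i : K) * a) =
        ex (((i + 1 : ℕ) : K) * a) - ex ((i : K) * a) := by
      intro i _
      rw [sub_mul, one_mul, ← ex_add]
      congr 2
      push_cast
      ring
    rw [Finset.sum_congr rfl h2, Finset.sum_range_sub (fun i : ℕ => ex ((i : K) * a))]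
    rw [Nat.cast_zero, zero_mul, ex_zero]
  rw [ex_eq a, ex_eq ((P : K) * a)] at h1
  apply mul_left_cancel₀ (X_ne_zero (R := K))
  linear_combination h1

private lemma sum_ex (a b l : K) (s : Finset (ℕ × ℕ)) :
    PowerSeries.mk (fun k => chs l a b k s) = ∑ e ∈ s, ex (l + cn a b e) := by
  ext k
  rw [coeff_mk, map_sum]
  unfold chs
  exact sum_congr rfl fun e _ => (coeff_ex _ _).symm

private lemma chs_rc (a b l : K) (P Q : ℕ) :
    PowerSeries.mk (fun k => a * b * chs l a b k (rc P Q)) =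
      VV a b l * ((C ((P : K) * a) * rs ((P : K) * a)) * (C ((Q : K) * b) * rs ((Q : K) * b))) := by
  have h0 : PowerSeries.mk (fun k => a * b * chs l a b k (rc P Q)) =
      C (a * b) * PowerSeries.mk (fun k => chs l a b k (rc P Q)) := by
    ext k
    rw [coeff_mk, coeff_C_mul, coeff_mk]
  have h1 : ∑ e ∈ rc P Q, ex (l + cn a b e) =
      ex l * ((∑ i ∈ range P, ex ((i : K) * a)) * ∑ j ∈ range Q, ex ((j : K) * b)) := by
    unfold rc
    rw [Finset.sum_product, Finset.sum_mul_sum, Finset.mul_sum]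
    apply Finset.sum_congr rfl
    intro i _
    rw [Finset.mul_sum]
    apply Finset.sum_congr rfl
    intro j _
    unfold Cs.cn
    rw [ex_add, ex_add]
  have hne : rs a * rs b ≠ 0 := mul_ne_zero (rs_ne a) (rs_ne b)
  apply mul_right_cancel₀ hne
  rw [h0, sum_ex, h1, ← geo a P, ← geo b Q, map_mul]
  have h2 := VV_mul a b l
  linear_combination (-(C a * rs a * (∑ i ∈ range P, ex ((i : K) * a))) *
    (C b * rs b * ∑ j ∈ range Q, ex ((j : K) * b))) * h2

private lemma rs_neg {a : K} (ha : a ≠ 0) : ex a * rs (-a) = rs a := by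
  have h1 := ex_eq a
  have h2 := ex_eq (-a)
  have h3 : ex a * ex (-a) = 1 := by
    rw [← ex_add, add_neg_cancel, ex_zero]
  have h4 : (C a : K⟦X⟧) * X ≠ 0 := by
    refine mul_ne_zero ?_ X_ne_zero
    rw [Ne, ← map_zero (C (R := K))]
    exact fun h => ha (C_injective h)
  apply mul_left_cancel₀ h4
  rw [map_neg] at h2
  linear_combination (-1 : K⟦X⟧) * h3 + (ex a) * h2 + h1

private lemma rescale_ex (a : K) : rescale (-1 : K) (ex a) = ex (-a) := by
  ext n
  rw [coeff_rescale, coeff_ex, coeff_ex, ← neg_one_mul a, mul_pow]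
  ring

private lemma rescale_rs (a : K) : rescale (-1 : K) (rs a) = rs (-a) := by
  ext n
  unfold rs
  rw [coeff_rescale, coeff_mk, coeff_mk, ← neg_one_mul a, mul_pow]
  ring

private lemma VV_odd {a b l : K} (ha : a ≠ 0) (hb : b ≠ 0) (h : 2 * l = a + b) {e : ℕ}
    (he : e % 2 = 1) : coeff e (VV a b l) = 0 := by
  have h1 := congrArg (rescale (-1 : K)) (VV_mul a b l)
  rw [map_mul, map_mul, rescale_ex, rescale_rs, rescale_rs] at h1
  have h2 : rescale (-1 : K) (VV a b l) * (rs a * rs b) = ex l := by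
    rw [← rs_neg ha, ← rs_neg hb]
    have h3 : ex l = ex a * ex b * ex (-l) := by
      rw [← ex_add, ← ex_add]
      congr 1
      linear_combination h
    rw [h3, ← h1]
    ring
  have h4 : rescale (-1 : K) (VV a b l) = VV a b l := by
    apply mul_right_cancel₀ (mul_ne_zero (rs_ne a) (rs_ne b))
    rw [h2, VV_mul]
  have h5 := congrArg (coeff e) h4
  rw [coeff_rescale] at h5
  have h6 : Odd e := Nat.odd_iff.2 he
  rw [h6.neg_one_pow, neg_one_mul] at h5
  have h7 : (2 : K) * coeff e (VV a b l) = 0 := by linear_combination -h5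
  exact (mul_eq_zero.1 h7).resolve_left two_ne_zero

/-- symmetric functions of `x = p a`, `y = q b`, divisible by `x y` -/
noncomputable def SYM (p : Bool) (a b : K) (n : ℕ) : Submodule K (ℕ × ℕ → K) :=
  Submodule.span K {F | ∃ i j, okb p (i + j + 2) n ∧ F = fun y : ℕ × ℕ =>
    ((y.1 : K) * a) ^ (i + 1) * ((y.2 : K) * b) ^ (j + 1) +
    ((y.1 : K) * a) ^ (j + 1) * ((y.2 : K) * b) ^ (i + 1)}

variable {p : Bool} {a b : K}

lemma okb_add {x y m n : ℕ} (h : okb p x m) (h' : okb p y n) : okb p (x + y) (m + n) :=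
  (okb_rel p).add h h'

lemma okb_trans {x y z : ℕ} (h : okb p x y) (h' : okb p y z) : okb p x z := by
  cases p
  · exact le_trans (show x ≤ y from h) (show y ≤ z from h')
  · obtain ⟨k, hk⟩ := h
    obtain ⟨k', hk'⟩ := h'
    exact ⟨k + k', by omega⟩

omit [CharZero K] in
lemma SYM_mono {m n : ℕ} (h : okb p m n) {F : ℕ × ℕ → K} (hF : F ∈ SYM p a b m) :
    F ∈ SYM p a b n := by
  unfold SYM at hF ⊢
  refine Submodule.span_mono ?_ hF
  rintro G ⟨i, j, h1, rfl⟩
  exact ⟨i, j, okb_trans h1 h, rfl⟩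

omit [CharZero K] in
lemma SYM_mul {m n : ℕ} {F G : ℕ × ℕ → K} (hF : F ∈ SYM p a b m) (hG : G ∈ SYM p a b n) :
    F * G ∈ SYM p a b (m + n) := by
  unfold SYM at hF
  induction hF using Submodule.span_induction with
  | mem x hx =>
    obtain ⟨i, j, h1, rfl⟩ := hx
    unfold SYM at hG
    induction hG using Submodule.span_induction with
    | mem y hy =>
      obtain ⟨r, s, h2, rfl⟩ := hy
      have e : (fun y : ℕ × ℕ => ((y.1 : K) * a) ^ (i + 1) * ((y.2 : K) * b) ^ (j + 1) +
          ((y.1 : K) * a) ^ (j + 1) * ((y.2 : K) * b) ^ (i + 1)) *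
          (fun y : ℕ × ℕ => ((y.1 : K) * a) ^ (r + 1) * ((y.2 : K) * b) ^ (s + 1) +
          ((y.1 : K) * a) ^ (s + 1) * ((y.2 : K) * b) ^ (r + 1)) =
          (fun y : ℕ × ℕ => ((y.1 : K) * a) ^ (i + r + 1 + 1) * ((y.2 : K) * b) ^ (j + s + 1 + 1) +
          ((y.1 : K) * a) ^ (j + s + 1 + 1) * ((y.2 : K) * b) ^ (i + r + 1 + 1)) +
          (fun y : ℕ × ℕ => ((y.1 : K) * a) ^ (i + s + 1 + 1) * ((y.2 : K) * b) ^ (j + r + 1 + 1) +
          ((y.1 : K) * a) ^ (j + r + 1 + 1) * ((y.2 : K) * b) ^ (i + s + 1 + 1)) := by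
        funext y
        simp only [Pi.mul_apply, Pi.add_apply]
        ring
      rw [e]
      refine add_mem (Submodule.subset_span ⟨i + r + 1, j + s + 1, ?_, rfl⟩)
        (Submodule.subset_span ⟨i + s + 1, j + r + 1, ?_, rfl⟩)
      · have := okb_add h1 h2
        rwa [show i + r + 1 + (j + s + 1) + 2 = i + j + 2 + (r + s + 2) by ring]
      · have := okb_add h1 h2
        rwa [show i + s + 1 + (j + r + 1) + 2 = i + j + 2 + (r + s + 2) by ring]
    | zero => rw [mul_zero]; exact zero_mem _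
    | add x y _ _ hx hy => rw [mul_add]; exact add_mem hx hy
    | smul c x _ hx => rw [mul_smul_comm]; exact Submodule.smul_mem _ _ hx
  | zero => rw [zero_mul]; exact zero_mem _
  | add x y _ _ hx hy => rw [add_mul]; exact add_mem hx hy
  | smul c x _ hx => rw [smul_mul_assoc]; exact Submodule.smul_mem _ _ hx

private lemma rs_mem (m n : ℕ) (h : okb p (m + 2) n) :
    (fun y : ℕ × ℕ => coeff m ((C ((y.1 : K) * a) * rs ((y.1 : K) * a)) *
      (C ((y.2 : K) * b) * rs ((y.2 : K) * b)))) ∈ SYM p a b n := by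
  have e : (fun y : ℕ × ℕ => coeff m ((C ((y.1 : K) * a) * rs ((y.1 : K) * a)) *
      (C ((y.2 : K) * b) * rs ((y.2 : K) * b)))) =
      (1 / 2 : K) • ∑ x ∈ antidiagonal m,
        (algebraMap ℚ K (((x.1 + 1).factorial : ℚ)⁻¹) *
          algebraMap ℚ K (((x.2 + 1).factorial : ℚ)⁻¹)) • (fun y : ℕ × ℕ =>
            ((y.1 : K) * a) ^ (x.1 + 1) * ((y.2 : K) * b) ^ (x.2 + 1) +
            ((y.1 : K) * a) ^ (x.2 + 1) * ((y.2 : K) * b) ^ (x.1 + 1)) := by
    funext y
    rw [Pi.smul_apply, Finset.sum_apply, PowerSeries.coeff_mul]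
    simp only [coeff_C_mul, Pi.smul_apply, smul_eq_mul]
    unfold rs
    simp only [coeff_mk]
    have h1 : ∑ x ∈ antidiagonal m, ((y.1 : K) * a *
        (algebraMap ℚ K (((x.1 + 1).factorial : ℚ)⁻¹) * ((y.1 : K) * a) ^ x.1)) *
        ((y.2 : K) * b * (algebraMap ℚ K (((x.2 + 1).factorial : ℚ)⁻¹) *
          ((y.2 : K) * b) ^ x.2)) =
        ∑ x ∈ antidiagonal m, ((y.1 : K) * a *
        (algebraMap ℚ K (((x.2 + 1).factorial : ℚ)⁻¹) * ((y.1 : K) * a) ^ x.2)) *
        ((y.2 : K) * b * (algebraMap ℚ K (((x.1 + 1).factorial : ℚ)⁻¹) *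
          ((y.2 : K) * b) ^ x.1)) := by
      rw [← Finset.Nat.sum_antidiagonal_swap]
      rfl
    have h2 : ∀ t : K, t = (1 / 2 : K) * (t + t) := by
      intro t
      ring
    rw [h2 (∑ x ∈ antidiagonal m, _)]
    congr 1
    nth_rewrite 2 [h1]
    rw [← Finset.sum_add_distrib]
    apply Finset.sum_congr rfl
    intro x _
    ring
  rw [e]
  refine Submodule.smul_mem _ _ (Submodule.sum_mem _ fun x hx => Submodule.smul_mem _ _ ?_)
  refine Submodule.subset_span ⟨x.1, x.2, ?_, rfl⟩
  have hx' := Finset.HasAntidiagonal.mem_antidiagonal.1 hx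
  rw [hx']
  exact h

/-- `a b ch_k` of rectangles -/
theorem chs_mem (ha : a ≠ 0) (hb : b ≠ 0) {l : K} (hp : p = true → 2 * l = a + b) (k : ℕ) :
    (fun y : ℕ × ℕ => a * b * chs l a b k (rc y.1 y.2)) ∈ SYM p a b (k + 2) := by
  have e : (fun y : ℕ × ℕ => a * b * chs l a b k (rc y.1 y.2)) =
      ∑ x ∈ antidiagonal k, coeff x.1 (VV a b l) •
        (fun y : ℕ × ℕ => coeff x.2 ((C ((y.1 : K) * a) * rs ((y.1 : K) * a)) *
      (C ((y.2 : K) * b) * rs ((y.2 : K) * b)))) := by
    funext y
    have h := congrArg (coeff k) (chs_rc a b l y.1 y.2)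
    rw [coeff_mk] at h
    rw [h, PowerSeries.coeff_mul, Finset.sum_apply]
    rfl
  rw [e]
  refine Submodule.sum_mem _ fun x hx => ?_
  have hx' := Finset.HasAntidiagonal.mem_antidiagonal.1 hx
  by_cases hz : coeff x.1 (VV a b l) = 0
  · rw [hz, zero_smul]
    exact Submodule.zero_mem _
  · refine Submodule.smul_mem _ _ (rs_mem x.2 (k + 2) ?_)
    cases p
    · show x.2 + 2 ≤ k + 2
      omega
    · have h2 : x.1 % 2 ≠ 1 := fun h => hz (VV_odd ha hb (hp rfl) h)
      exact ⟨x.1 / 2, by omega⟩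

lemma chs_mem' (ha : a ≠ 0) (hb : b ≠ 0) {l : K} (hp : p = true → 2 * l = a + b) (k : ℕ) :
    (fun y : ℕ × ℕ => chs l a b k (rc y.1 y.2)) ∈ SYM p a b (k + 2) := by
  have h := Submodule.smul_mem _ ((a * b)⁻¹) (chs_mem (p := p) ha hb hp k)
  have e : (a * b)⁻¹ • (fun y : ℕ × ℕ => a * b * chs l a b k (rc y.1 y.2)) =
      fun y : ℕ × ℕ => chs l a b k (rc y.1 y.2) := by
    funext y
    rw [Pi.smul_apply, smul_eq_mul, ← mul_assoc, inv_mul_cancel₀ (mul_ne_zero ha hb), one_mul]
  rwa [e] at h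

lemma mon_mem (ha : a ≠ 0) (hb : b ≠ 0) {l : K} (hp : p = true → 2 * l = a + b)
    (I : ℕ →₀ ℕ) : ∀ (n : ℕ) (G : ℕ × ℕ → K), G ∈ SYM p a b n →
    (fun y : ℕ × ℕ => G y * mon (fun k => chs l a b k (rc y.1 y.2)) I) ∈
      SYM p a b (n + Cs.wt I) := by
  induction I using Finsupp.induction_linear with
  | zero =>
    intro n G hG
    simp only [mon_zero, mul_one]
    rwa [wt_zero', add_zero]
  | add I J hI hJ =>
    intro n G hG
    have h := hJ _ _ (hI n G hG)
    rw [wt_add, ← add_assoc]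
    simp only [mon_add]
    have e : (fun y : ℕ × ℕ => G y * (mon (fun k => chs l a b k (rc y.1 y.2)) I *
        mon (fun k => chs l a b k (rc y.1 y.2)) J)) =
        fun y : ℕ × ℕ => G y * mon (fun k => chs l a b k (rc y.1 y.2)) I *
        mon (fun k => chs l a b k (rc y.1 y.2)) J := by
      funext y
      ring
    rw [e]
    exact h
  | single k m =>
    intro n G hG
    rw [wt_single]
    simp only [mon_single]
    induction m with
    | zero => simpa using hG
    | succ m ih =>
      have h := SYM_mul ih (chs_mem' (p := p) ha hb hp k)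
      rw [show n + (m + 1) * (k + 2) = n + m * (k + 2) + (k + 2) by ring]
      have e : (fun y : ℕ × ℕ => G y * chs l a b k (rc y.1 y.2) ^ (m + 1)) =
          (fun y : ℕ × ℕ => G y * chs l a b k (rc y.1 y.2) ^ m) *
          (fun y : ℕ × ℕ => chs l a b k (rc y.1 y.2)) := by
        funext y
        rw [Pi.mul_apply, pow_succ, mul_assoc]
      rw [e]
      exact h

/-- the sum over rectangles -/
noncomputable def TT (a b : K) (G : ℕ × ℕ → K) : K⟦X⟧ :=
  PowerSeries.mk fun n => ∑ y ∈ n.divisorsAntidiagonal,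
        ((y.2 : K) * b - y.1 * a) / ((y.1 : K) * y.2 * a * b) * G y

private lemma SE_map (r s : ℕ) (n : ℕ) :
    coeff n (PowerSeries.map (algebraMap ℚ K) (SE r s)) =
      ∑ y ∈ n.divisorsAntidiagonal, (y.1 : K) ^ r * (y.2 : K) ^ s := by
  rw [coeff_map]
  unfold SE
  rw [coeff_mk, map_sum]
  apply Finset.sum_congr rfl
  intro y _
  rw [map_mul, map_pow, map_pow, map_natCast, map_natCast]

private lemma anti_mem {r s n : ℕ} (h : okb p (r + s + 1) n) :
    (a ^ r * b ^ s - a ^ s * b ^ r) • PowerSeries.map (algebraMap ℚ K) (SE r s) ∈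
      qM K (okb p) n := by
  by_cases hrs : r = s
  · subst hrs
    rw [sub_self, zero_smul]
    exact Submodule.zero_mem _
  · exact Submodule.smul_mem _ _ (QP_map_mem (okb_rel p) h (SE_ne hrs))

theorem TT_mem (ha : a ≠ 0) (hb : b ≠ 0) {n : ℕ} {G : ℕ × ℕ → K} (hG : G ∈ SYM p a b n) :
    TT a b G ∈ qM K (okb p) n := by
  unfold SYM at hG
  induction hG using Submodule.span_induction with
  | mem x hx =>
    obtain ⟨i, j, h1, rfl⟩ := hx
    have e : TT a b (fun y : ℕ × ℕ =>
        ((y.1 : K) * a) ^ (i + 1) * ((y.2 : K) * b) ^ (j + 1) +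
        ((y.1 : K) * a) ^ (j + 1) * ((y.2 : K) * b) ^ (i + 1)) =
        (a ^ i * b ^ (j + 1) - a ^ (j + 1) * b ^ i) •
          PowerSeries.map (algebraMap ℚ K) (SE i (j + 1)) +
        (a ^ j * b ^ (i + 1) - a ^ (i + 1) * b ^ j) •
          PowerSeries.map (algebraMap ℚ K) (SE j (i + 1)) := by
      ext N
      have h2 : coeff N (PowerSeries.map (algebraMap ℚ K) (SE i (j + 1))) =
          ∑ y ∈ N.divisorsAntidiagonal, (y.1 : K) ^ (j + 1) * (y.2 : K) ^ i := by
        rw [SE_symm, SE_map]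
      have h3 : coeff N (PowerSeries.map (algebraMap ℚ K) (SE j (i + 1))) =
          ∑ y ∈ N.divisorsAntidiagonal, (y.1 : K) ^ (i + 1) * (y.2 : K) ^ j := by
        rw [SE_symm, SE_map]
      rw [map_add, map_smul, map_smul, smul_eq_mul, smul_eq_mul, sub_mul, sub_mul]
      nth_rewrite 2 [h2]
      nth_rewrite 2 [h3]
      rw [SE_map, SE_map]
      unfold TT
      rw [coeff_mk]
      simp only [Finset.mul_sum]
      rw [← Finset.sum_sub_distrib, ← Finset.sum_sub_distrib, ← Finset.sum_add_distrib]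
      apply Finset.sum_congr rfl
      intro y hy
      have h4 := Nat.mem_divisorsAntidiagonal.1 hy
      have h5 : (y.1 : K) ≠ 0 := by
        rw [Nat.cast_ne_zero]
        exact fun h => h4.2 (by rw [← h4.1, h, zero_mul])
      have h6 : (y.2 : K) ≠ 0 := by
        rw [Nat.cast_ne_zero]
        exact fun h => h4.2 (by rw [← h4.1, h, mul_zero])
      rw [pow_succ ((y.1 : K) * a), pow_succ ((y.1 : K) * a), pow_succ ((y.2 : K) * b),
        pow_succ ((y.2 : K) * b)]
      field_simp
      ring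
    rw [e]
    refine add_mem (anti_mem ?_) (anti_mem ?_)
    · rwa [show i + (j + 1) + 1 = i + j + 2 by ring]
    · rwa [show j + (i + 1) + 1 = i + j + 2 by ring]
  | zero =>
    have e : TT a b (0 : ℕ × ℕ → K) = 0 := by
      ext N
      unfold TT
      rw [coeff_mk]
      simp
    rw [e]
    exact zero_mem _
  | add x y _ _ hx hy =>
    have e : TT a b (x + y) = TT a b x + TT a b y := by
      ext N
      unfold TT
      rw [map_add, coeff_mk, coeff_mk, coeff_mk, ← Finset.sum_add_distrib]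
      apply Finset.sum_congr rfl
      intro z _
      rw [Pi.add_apply, mul_add]
    rw [e]
    exact add_mem hx hy
  | smul c x _ hx =>
    have e : TT a b (c • x) = c • TT a b x := by
      ext N
      unfold TT
      rw [map_smul, coeff_mk, coeff_mk, smul_eq_mul, Finset.mul_sum]
      apply Finset.sum_congr rfl
      intro z _
      rw [Pi.smul_apply, smul_eq_mul]
      ring
    rw [e]
    exact Submodule.smul_mem _ _ hx

end

end MPa7fa83.Lw
end

section

/-!
# W7: values and derivatives at `-a` and `-b`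

At `c = -a` the generating series is `1`, the logarithmic derivatives vanish, and their derivatives
in `c` are sums over rectangles.  Transposition of diagrams exchanges `a` and `b`.
-/

set_option autoImplicit false

namespace MPa7fa83.Lw

open Finset PowerSeries MPa7fa83.Cs
open MPa7fa83.Ok hiding rs

section

variable {K : Type*} [Field K]

lemma evd_mul (u : K) (f g : (Polynomial K)⟦X⟧) :
    evd u (f * g) = evd u f * evp u g + evp u f * evd u g := by
  ext n
  unfold evd evp
  rw [map_add, PowerSeries.coeff_mul, PowerSeries.coeff_mul, coeff_mk, PowerSeries.coeff_mul,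
    Polynomial.derivative_sum, Polynomial.eval_finsetSum, ← Finset.sum_add_distrib]
  apply Finset.sum_congr rfl
  intro x _
  rw [Polynomial.derivative_mul, Polynomial.eval_add, Polynomial.eval_mul, Polynomial.eval_mul,
    coeff_mk, coeff_mk, PowerSeries.coeff_map, PowerSeries.coeff_map,
    Polynomial.coe_evalRingHom]

lemma evd_sum {ι : Type*} (u : K) (s : Finset ι) (f : ι → (Polynomial K)⟦X⟧) :
    evd u (∑ i ∈ s, f i) = ∑ i ∈ s, evd u (f i) := by
  ext n
  unfold evd
  rw [coeff_mk, map_sum, Polynomial.derivative_sum, Polynomial.eval_finsetSum, map_sum]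
  apply Finset.sum_congr rfl
  intro i _
  rw [coeff_mk]

lemma evd_qs (u : K) (φ : Finset (ℕ × ℕ) → Polynomial K) :
    evd u (qs φ) = qs (fun s => (Polynomial.derivative (φ s)).eval u) := by
  ext n
  unfold evd qs
  rw [coeff_mk, coeff_mk, coeff_mk, Polynomial.derivative_sum, Polynomial.eval_finsetSum]

lemma evd_C_mul (u c : K) (f : (Polynomial K)⟦X⟧) :
    evd u (C (Polynomial.C c) * f) = C c * evd u f := by
  ext n
  unfold evd
  rw [coeff_mk, coeff_C_mul, coeff_C_mul, coeff_mk, Polynomial.derivative_C_mul,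
    Polynomial.eval_C_mul]

/-- coefficientwise derivative at `u` -/
noncomputable def evdm (u : K) (A : MvPowerSeries ℕ (Polynomial K)⟦X⟧) : MvPowerSeries ℕ K⟦X⟧ :=
  fun I => evd u (MvPowerSeries.coeff I A)

lemma coeff_evdm (u : K) (A : MvPowerSeries ℕ (Polynomial K)⟦X⟧) (I : ℕ →₀ ℕ) :
    MvPowerSeries.coeff I (evdm u A) = evd u (MvPowerSeries.coeff I A) := rfl

lemma evdm_mul (u : K) (A B : MvPowerSeries ℕ (Polynomial K)⟦X⟧) :
    evdm u (A * B) = evdm u A * mp (Polynomial.evalRingHom u) B +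
      mp (Polynomial.evalRingHom u) A * evdm u B := by
  ext1 I
  rw [coeff_evdm, MvPowerSeries.coeff_mul, evd_sum, map_add, MvPowerSeries.coeff_mul,
    MvPowerSeries.coeff_mul, ← Finset.sum_add_distrib]
  apply Finset.sum_congr rfl
  intro x _
  rw [evd_mul, coeff_evdm, coeff_evdm, coeff_mp, coeff_mp]
  rfl

end

section

variable {R : Type*} [CommRing R] [Algebra ℚ R]

private lemma dfac_succ (I : ℕ →₀ ℕ) (k : ℕ) :
    dfac (I + Finsupp.single k 1) = dfac I * (I k + 1) := by
  classical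
  have e1 : ∀ J : ℕ →₀ ℕ, dfac J = J.prod fun _ n => n.factorial := fun _ => rfl
  rw [e1, e1]
  have h1 : (I + Finsupp.single k 1).prod (fun _ n => n.factorial) =
      ∏ i ∈ insert k I.support, ((I + Finsupp.single k 1 : ℕ →₀ ℕ) i).factorial := by
    apply Finsupp.prod_of_support_subset
    · intro i hi
      rw [Finsupp.mem_support_iff, Finsupp.add_apply] at hi
      rw [Finset.mem_insert, Finsupp.mem_support_iff]
      by_cases h : i = k
      · exact Or.inl h
      · right
        rwa [Finsupp.single_eq_of_ne h, add_zero] at hi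
    · intro i _; rfl
  have h2 : I.prod (fun _ n => n.factorial) = ∏ i ∈ insert k I.support, (I i).factorial := by
    apply Finsupp.prod_of_support_subset
    · exact Finset.subset_insert _ _
    · intro i _; rfl
  rw [h1, h2, ← Finset.mul_prod_erase _ _ (Finset.mem_insert_self k I.support),
    ← Finset.mul_prod_erase _ (fun i => (I i).factorial) (Finset.mem_insert_self k I.support)]
  have h3 : ∏ x ∈ (insert k I.support).erase k,
      ((I + Finsupp.single k 1 : ℕ →₀ ℕ) x).factorial =
      ∏ x ∈ (insert k I.support).erase k, (I x).factorial := by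
    apply Finset.prod_congr rfl
    intro i hi
    rw [Finset.mem_erase] at hi
    rw [Finsupp.add_apply, Finsupp.single_eq_of_ne hi.1, add_zero]
  rw [h3, Finsupp.add_apply, Finsupp.single_eq_same, Nat.factorial_succ]
  ring

private lemma dfac_pos (I : ℕ →₀ ℕ) : 0 < dfac I := by
  apply Finset.prod_pos
  intro i _
  exact Nat.factorial_pos _

lemma sr_succ (x : ℕ → R) (I : ℕ →₀ ℕ) (k : ℕ) :
    sr x (I + Finsupp.single k 1) * ((I k : R) + 1) = x k * sr x I := by
  have h1 : algebraMap ℚ R ((dfac (I + Finsupp.single k 1) : ℚ)⁻¹) * ((I k : R) + 1) =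
      algebraMap ℚ R ((dfac I : ℚ)⁻¹) := by
    have h2 : ((I k : R) + 1) = algebraMap ℚ R ((I k : ℚ) + 1) := by
      rw [map_add, map_natCast, map_one]
    rw [h2, ← map_mul, dfac_succ]
    congr 1
    have h3 : (dfac I : ℚ) ≠ 0 := by
      have := dfac_pos I
      positivity
    have h4 : ((I k : ℚ) + 1) ≠ 0 := by positivity
    push_cast
    field_simp
  unfold sr
  rw [mon_add, mon_single, pow_one]
  linear_combination (mon x I * x k) * h1

lemma coeff_pderiv_ZR (φ : Finset (ℕ × ℕ) → R) (x : ℕ → Finset (ℕ × ℕ) → R) (k : ℕ)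
    (I : ℕ →₀ ℕ) : MvPowerSeries.coeff I (MvPowerSeries.pderiv R⟦X⟧ k (ZR φ x)) =
      qs (fun s => φ s * (x k s * sr (fun k => x k s) I)) := by
  rw [MvPowerSeries.coeff_pderiv, coeff_ZR]
  have h : ((I k : R⟦X⟧) + 1) = C ((I k : R) + 1) := by
    rw [map_add, map_natCast, map_one]
  rw [h, mul_comm, ← qs_smul]
  congr 1
  funext s
  have h2 := sr_succ (fun k => x k s) I k
  linear_combination (φ s) * h2

end

section

variable {K : Type*} [Field K] [CharZero K]

omit [CharZero K] in
lemma eval_wp (a b : K) (s : Finset (ℕ × ℕ)) :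
    (wp a b s).eval (-a) = if s = ∅ then 1 else 0 := by
  split_ifs with h
  · rw [h, wp_empty, Polynomial.eval_one]
  · obtain ⟨e, he⟩ := Finset.nonempty_iff_ne_empty.2 h
    obtain ⟨m, hm, _, h3, h4⟩ := exists_corner he
    unfold wp
    rw [Polynomial.eval_prod, Finset.prod_eq_zero hm]
    simp only [Polynomial.eval_mul, Polynomial.eval_add, Polynomial.eval_X, Polynomial.eval_C,
      W1_corner a b h3 h4, neg_add_cancel, zero_mul]

private lemma sr_zero_val {x : ℕ → K} (hx : ∀ k, x k = 0) (I : ℕ →₀ ℕ) :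
    sr x I = if I = 0 then 1 else 0 := by
  split_ifs with h
  · rw [h, sr_zero]
  · unfold sr
    obtain ⟨k, hk⟩ : ∃ k, I k ≠ 0 := by
      by_contra hcon
      push Not at hcon
      exact h (Finsupp.ext hcon)
    have h1 : mon x I = 0 := by
      unfold mon Finsupp.prod
      rw [Finset.prod_eq_zero (Finsupp.mem_support_iff.2 hk)]
      show x k ^ I k = 0
      rw [hx k, zero_pow hk]
    rw [h1, mul_zero]

lemma ZR_point (x : ℕ → Finset (ℕ × ℕ) → K) (hx : ∀ k, x k ∅ = 0) :
    ZR (fun s => if s = ∅ then (1 : K) else 0) x = 1 := by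
  classical
  ext1 I
  rw [coeff_ZR, MvPowerSeries.coeff_one]
  ext n
  unfold qs
  rw [coeff_mk]
  rcases Nat.eq_zero_or_pos n with rfl | hn
  · rw [dg_zero, Finset.sum_singleton, if_pos rfl, one_mul, sr_zero_val hx]
    split_ifs
    · rw [coeff_zero_one]
    · rw [map_zero]
  · rw [Finset.sum_eq_zero]
    · split_ifs
      · rw [PowerSeries.coeff_one, if_neg (by omega)]
      · rw [map_zero]
    · intro s hs
      rw [if_neg, zero_mul]
      rintro rfl
      rw [mem_dg, Finset.card_empty] at hs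
      omega

lemma chs_empty (l a b : K) (k : ℕ) : chs l a b k ∅ = 0 := by
  unfold chs
  exact Finset.sum_empty

private lemma mp_point (a b l : K) :
    mp (Polynomial.evalRingHom (-a)) (ZR (wp a b) (fun k s => Polynomial.C (chs l a b k s))) =
      1 := by
  rw [mp_ZR, ← ZR_point (fun k s => chs l a b k s) (fun k => chs_empty l a b k)]
  congr 1
  · funext s
    rw [Polynomial.coe_evalRingHom, eval_wp]
  · funext k s
    rw [Polynomial.coe_evalRingHom, Polynomial.eval_C]

private lemma mp_ld_zero (a b l : K) (k : ℕ) :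
    mp (Polynomial.evalRingHom (-a))
      (ld (ZR (wp a b) (fun k s => Polynomial.C (chs l a b k s))) k) = 0 := by
  rw [mp_ld _ (ZR_unit (wp_empty a b) _), mp_point]
  unfold ld
  rw [MvPowerSeries.pderiv_one, zero_mul]

/-- the value at `-a` -/
theorem evp_a (a b l : K) (k : ℕ) (I : ℕ →₀ ℕ) : evp (-a) (gP a b l k I) = 0 := by
  unfold evp gP
  rw [map_mul, ← coeff_mp, mp_ld_zero, map_zero, mul_zero]

/-- the derivative at `-a` -/
theorem evd_a {a b : K} (hab : ∀ x y : ℤ, (x : K) * a + y * b = 0 → x = 0 ∧ y = 0) (l : K)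
    (k : ℕ) (I : ℕ →₀ ℕ) : evd (-a) (gP a b l k I) =
      TT a b (fun y => a * b * chs l a b k (rc y.1 y.2) *
        sr (fun k => chs l a b k (rc y.1 y.2)) I) := by
  set Z : MvPowerSeries ℕ (Polynomial K)⟦X⟧ :=
    ZR (wp a b) (fun k s => Polynomial.C (chs l a b k s)) with hZ
  have h1 : evdm (-a) (ld Z k) = evdm (-a) (MvPowerSeries.pderiv _ k Z) := by
    have h2 := congrArg (evdm (-a)) (ld_mul (ZR_unit (wp_empty a b)
      (fun k s => Polynomial.C (chs l a b k s))) k)
    rw [evdm_mul, mp_point, mp_ld_zero, mul_one, zero_mul, add_zero] at h2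
    exact h2
  have h3 : evd (-a) (MvPowerSeries.coeff I (ld Z k)) =
      qs (fun s => (Polynomial.derivative (wp a b s)).eval (-a) *
        (chs l a b k s * sr (fun k => chs l a b k s) I)) := by
    rw [← coeff_evdm, h1, coeff_evdm, hZ, coeff_pderiv_ZR, evd_qs]
    congr 1
    funext s
    have e : Polynomial.C (chs l a b k s) * sr (fun k => Polynomial.C (chs l a b k s)) I =
        Polynomial.C (chs l a b k s * sr (fun k => chs l a b k s) I) := by
      rw [map_mul, map_sr]
    rw [e, Polynomial.derivative_mul, Polynomial.derivative_C, mul_zero, add_zero,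
      Polynomial.eval_mul, Polynomial.eval_C]
  unfold gP
  rw [evd_C_mul, h3, ← qs_smul]
  have h4 := qs_der hab (fun s => a * b * chs l a b k s * sr (fun k => chs l a b k s) I)
  unfold TT
  rw [← h4]
  congr 1
  funext s
  ring

/-- the derivative at `-a` is in the span -/
theorem evd_a_mem {p : Bool} {a b : K}
    (hab : ∀ x y : ℤ, (x : K) * a + y * b = 0 → x = 0 ∧ y = 0) {l : K}
    (hp : p = true → 2 * l = a + b) (k : ℕ) (I : ℕ →₀ ℕ) :
    evd (-a) (gP a b l k I) ∈ qM K (okb p) (k + 2 + deg I + 2 * num I) := by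
  have ha : a ≠ 0 := by
    rintro rfl
    exact one_ne_zero (hab 1 0 (by simp)).1
  have hb : b ≠ 0 := by
    rintro rfl
    exact one_ne_zero (hab 0 1 (by simp)).2
  rw [evd_a hab]
  have h1 := mon_mem (p := p) ha hb hp I _ _ (chs_mem (p := p) ha hb hp k)
  have h2 := Submodule.smul_mem _ (algebraMap ℚ K ((dfac I : ℚ)⁻¹)) h1
  have e : algebraMap ℚ K ((dfac I : ℚ)⁻¹) • (fun y : ℕ × ℕ =>
      a * b * chs l a b k (rc y.1 y.2) * mon (fun k => chs l a b k (rc y.1 y.2)) I) =
      fun y : ℕ × ℕ => a * b * chs l a b k (rc y.1 y.2) *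
        sr (fun k => chs l a b k (rc y.1 y.2)) I := by
    funext y
    rw [Pi.smul_apply, smul_eq_mul]
    unfold sr
    ring
  rw [e] at h2
  have h3 := TT_mem (p := p) ha hb h2
  rw [wt_eq, ← add_assoc] at h3
  exact h3

/-! ### transposition -/

/-- the transposed diagram -/
def tr (s : Finset (ℕ × ℕ)) : Finset (ℕ × ℕ) := s.map ⟨Prod.swap, Prod.swap_injective⟩

lemma mem_tr {s : Finset (ℕ × ℕ)} {e : ℕ × ℕ} : e ∈ tr s ↔ e.swap ∈ s := by
  unfold tr
  rw [Finset.mem_map]
  constructor
  · rintro ⟨f, hf, rfl⟩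
    simpa using hf
  · intro h
    exact ⟨e.swap, h, by simp⟩

lemma tr_tr (s : Finset (ℕ × ℕ)) : tr (tr s) = s := by
  ext e
  rw [mem_tr, mem_tr, Prod.swap_swap]

lemma Lo_tr {s : Finset (ℕ × ℕ)} (hs : Lo s) : Lo (tr s) := by
  intro i j i' j' h h1 h2
  rw [mem_tr] at h ⊢
  exact hs j i j' i' h h2 h1

lemma card_tr (s : Finset (ℕ × ℕ)) : (tr s).card = s.card := Finset.card_map _

lemma arm_tr (s : Finset (ℕ × ℕ)) (e : ℕ × ℕ) : arm (tr s) e.swap = leg s e := by
  unfold arm leg tr
  rw [Finset.filter_map, Finset.card_map]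
  rfl

lemma leg_tr (s : Finset (ℕ × ℕ)) (e : ℕ × ℕ) : leg (tr s) e.swap = arm s e := by
  unfold arm leg tr
  rw [Finset.filter_map, Finset.card_map]
  rfl

lemma sum_dg_tr {M : Type*} [AddCommMonoid M] (n : ℕ) (φ : Finset (ℕ × ℕ) → M) :
    ∑ s ∈ dg n, φ (tr s) = ∑ s ∈ dg n, φ s := by
  refine Finset.sum_nbij' tr tr ?_ ?_ ?_ ?_ ?_
  · intro s hs
    rw [mem_dg] at hs ⊢
    exact ⟨Lo_tr hs.1, by rw [card_tr]; exact hs.2⟩
  · intro s hs
    rw [mem_dg] at hs ⊢
    exact ⟨Lo_tr hs.1, by rw [card_tr]; exact hs.2⟩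
  · intro s _
    exact tr_tr s
  · intro s _
    exact tr_tr s
  · intro s _
    rfl

lemma qs_tr {R : Type*} [CommRing R] (φ : Finset (ℕ × ℕ) → R) : qs (fun s => φ (tr s)) = qs φ := by
  ext n
  unfold qs
  rw [coeff_mk, coeff_mk]
  exact sum_dg_tr n φ

omit [CharZero K] in
lemma wp_tr (a b : K) (s : Finset (ℕ × ℕ)) : wp a b (tr s) = wp b a s := by
  unfold wp
  have h : ∏ e ∈ tr s, ((Polynomial.X + Polynomial.C (W1 a b (tr s) e)) *
      (Polynomial.X + Polynomial.C (W2 a b (tr s) e)) *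
      Polynomial.C ((W1 a b (tr s) e * W2 a b (tr s) e)⁻¹)) =
      ∏ e ∈ s, ((Polynomial.X + Polynomial.C (W1 a b (tr s) e.swap)) *
      (Polynomial.X + Polynomial.C (W2 a b (tr s) e.swap)) *
      Polynomial.C ((W1 a b (tr s) e.swap * W2 a b (tr s) e.swap)⁻¹)) := by
    conv_lhs => unfold tr
    rw [Finset.prod_map]
    rfl
  rw [h]
  apply Finset.prod_congr rfl
  intro e _
  have e1 : W1 a b (tr s) e.swap = W2 b a s e := by
    unfold W1 W2
    rw [arm_tr, leg_tr]
  have e2 : W2 a b (tr s) e.swap = W1 b a s e := by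
    unfold W1 W2
    rw [arm_tr, leg_tr]
  rw [e1, e2, mul_comm (W2 b a s e)]
  ring

lemma chs_tr (l a b : K) (k : ℕ) (s : Finset (ℕ × ℕ)) : chs l a b k (tr s) = chs l b a k s := by
  unfold chs
  conv_lhs => unfold tr
  rw [Finset.sum_map]
  apply Finset.sum_congr rfl
  intro e _
  unfold Cs.cn
  simp only [Function.Embedding.coeFn_mk, Prod.fst_swap, Prod.snd_swap]
  congr 2
  ring

lemma gP_symm (a b l : K) (k : ℕ) (I : ℕ →₀ ℕ) : gP a b l k I = gP b a l k I := by
  have h : ZR (wp a b) (fun k s => Polynomial.C (chs l a b k s)) =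
      ZR (wp b a) (fun k s => Polynomial.C (chs l b a k s)) := by
    ext1 J
    rw [coeff_ZR, coeff_ZR, ← qs_tr]
    congr 1
    funext s
    simp only [wp_tr, chs_tr]
  unfold gP
  rw [h, mul_comm a b]

theorem evp_b (a b l : K) (k : ℕ) (I : ℕ →₀ ℕ) : evp (-b) (gP a b l k I) = 0 := by
  rw [gP_symm]
  exact evp_a b a l k I

theorem evd_b_mem {p : Bool} {a b : K}
    (hab : ∀ x y : ℤ, (x : K) * a + y * b = 0 → x = 0 ∧ y = 0) {l : K}
    (hp : p = true → 2 * l = a + b) (k : ℕ) (I : ℕ →₀ ℕ) :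
    evd (-b) (gP a b l k I) ∈ qM K (okb p) (k + 2 + deg I + 2 * num I) := by
  rw [gP_symm]
  apply evd_a_mem
  · intro x y h
    obtain ⟨h1, h2⟩ := hab y x (by rw [← h]; ring)
    exact ⟨h2, h1⟩
  · intro h
    rw [hp h]
    ring

end

end MPa7fa83.Lw
end

section

/-!
# W9: the low degree theorem for generic weights

For `k + deg I ≤ 6` the coefficients of the logarithmic derivatives are in the span of q-zeta
values: interpolation with simple nodes `0, -a-b`, double nodes `-a, -b` and the three top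
coefficients.
-/

set_option autoImplicit false

namespace MPa7fa83.Lw

open Finset PowerSeries MPa7fa83.Cs
open MPa7fa83.Ok hiding rs

section

variable {K : Type*} [Field K] [CharZero K]

lemma evp_NF (a b c l : K) (k : ℕ) (I : ℕ →₀ ℕ) : evp c (gP a b l k I) = NF a b c l k I := by
  unfold evp
  rw [map_gP]
  simp only [Polynomial.coe_evalRingHom, Polynomial.eval_C, Polynomial.eval_X]

theorem gen_low {p : Bool} {a b l : K}
    (hab : ∀ x y : ℤ, (x : K) * a + y * b = 0 → x = 0 ∧ y = 0)
    (hp : p = true → 2 * l = a + b) (c : K) (k : ℕ) (I : ℕ →₀ ℕ) (hD : k + deg I ≤ 6) :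
    NF a b c l k I ∈ qM K (okb p) (k + 2 + deg I + 2 * num I) := by
  have h12 : (0 : K) ≠ -a - b := by
    intro h
    have := hab 1 1 (by push_cast; linear_combination h)
    omega
  have h13 : (0 : K) ≠ -a := by
    intro h
    have := hab 1 0 (by push_cast; linear_combination h)
    omega
  have h14 : (0 : K) ≠ -b := by
    intro h
    have := hab 0 1 (by push_cast; linear_combination h)
    omega
  have h23 : -a - b ≠ -a := by
    intro h
    have := hab 0 1 (by push_cast; linear_combination -h)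
    omega
  have h24 : -a - b ≠ -b := by
    intro h
    have := hab 1 0 (by push_cast; linear_combination -h)
    omega
  have h34 : -a ≠ -b := by
    intro h
    have := hab 1 (-1) (by push_cast; linear_combination -h)
    omega
  have key := interp (qM K (okb p) (k + 2 + deg I + 2 * num I)) (gP a b l k I)
    (N := k + 2 + deg I) (M := k + deg I) hD (fun j hj => cu_zero a b l hab k I j hj)
    (fun j hj => cu_top p a b l hab hp k I j hj) h12 h13 h14 h23 h24 h34
    (by rw [evp_NF]; exact NF_uni hab (Or.inl rfl) hp k I)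
    (by rw [evp_NF]; exact NF_uni hab (Or.inr rfl) hp k I)
    (by rw [evp_a]; exact Submodule.zero_mem _)
    (by rw [evp_b]; exact Submodule.zero_mem _)
    (evd_a_mem hab hp k I) (evd_b_mem hab hp k I)
  rw [← evp_NF, evp_eq (N := k + 2 + deg I) (fun j hj => cu_zero a b l hab k I j hj)]
  exact Submodule.sum_mem _ fun j _ => Submodule.smul_mem _ _ (key j)

end

end MPa7fa83.Lw
end

section

/-!
# W10: the low degree theorem for all weights with isolated fixed points

Deformation `a + z, b, c, l + z/2` over the Laurent series; the coefficient of `z^0` maps the span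
of q-zeta values over the Laurent series to the span over the base field.
-/

set_option autoImplicit false

namespace MPa7fa83.Lw

open Finset PowerSeries MPa7fa83.Cs
open MPa7fa83.Ok hiding rs

section

variable {K : Type*} [Field K] [CharZero K]

/-- the coefficient of `z^0` maps the span over the Laurent series to the span over `K` -/
theorem cz_qM {p : Bool} {w : ℕ} {f : (LaurentSeries K)⟦X⟧}
    (hf : f ∈ qM (LaurentSeries K) (okb p) w) : cz 0 f ∈ qM K (okb p) w := by
  unfold qM at hf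
  rw [Submodule.mem_span_set] at hf
  obtain ⟨c, hc, rfl⟩ := hf
  have e : cz 0 (c.sum fun v r => r • v) = ∑ v ∈ c.support, cz 0 (c v • v) := by
    ext n
    unfold cz Finsupp.sum
    rw [coeff_mk, map_sum, map_sum, HahnSeries.coeff_sum]
    apply Finset.sum_congr rfl
    intro v _
    rw [coeff_mk]
  rw [e]
  refine Submodule.sum_mem _ fun v hv => ?_
  obtain ⟨l, hl, h1, h2⟩ := hc hv
  have e2 : cz 0 (c v • v) = (c v).coeff 0 • PowerSeries.map (algebraMap ℚ K) (Z l) := by
    ext n
    unfold cz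
    rw [coeff_mk, map_smul, map_smul, smul_eq_mul, smul_eq_mul]
    nth_rewrite 2 [h2]
    rw [PowerSeries.coeff_map, PowerSeries.coeff_map]
    have h3 : algebraMap ℚ (LaurentSeries K) (coeff n (Z l)) =
        HahnSeries.C (algebraMap ℚ K (coeff n (Z l))) := by
      rw [RingHom.map_rat_algebraMap]
    rw [h3, mul_comm, HahnSeries.C_mul_eq_smul, HahnSeries.coeff_smul, smul_eq_mul, mul_comm]
  rw [e2]
  exact Submodule.smul_mem _ _ (Submodule.subset_span ⟨l, hl, h1, rfl⟩)

/-- the map to Laurent series -/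
noncomputable def p1 : K⟦X⟧ →+* LaurentSeries K := HahnSeries.ofPowerSeries ℤ K

omit [CharZero K] in
lemma cz_p1 (f : (K⟦X⟧)⟦X⟧) : cz 0 (PowerSeries.map p1 f) =
    PowerSeries.map (constantCoeff (R := K)) f := by
  ext n
  unfold cz
  rw [coeff_mk, PowerSeries.coeff_map, PowerSeries.coeff_map]
  unfold p1
  have h := HahnSeries.ofPowerSeries_apply_coeff (Γ := ℤ) (R := K) (coeff n f) 0
  rw [Nat.cast_zero] at h
  rw [h, coeff_zero_eq_constantCoeff_apply]

omit [CharZero K] in
lemma p1_inv {x : K⟦X⟧} (h : constantCoeff x ≠ 0) : (p1 x⁻¹ : LaurentSeries K) = (p1 x)⁻¹ := by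
  apply eq_inv_of_mul_eq_one_right
  rw [← map_mul, PowerSeries.mul_inv_cancel _ h, map_one]

omit [CharZero K] in
lemma p1_lin (a b : K) : p1 (C a + C b * X) = lin a b := by
  unfold p1 lin
  rw [map_add, map_mul, HahnSeries.ofPowerSeries_C, HahnSeries.ofPowerSeries_C,
    HahnSeries.ofPowerSeries_X, HahnSeries.C_apply b, HahnSeries.single_mul_single, zero_add,
    mul_one]

omit [CharZero K] in
lemma p0_lin (a b : K) : constantCoeff (C a + C b * X : K⟦X⟧) = a := by
  rw [map_add, map_mul, constantCoeff_C, constantCoeff_X, mul_zero, add_zero]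

end

section

variable {R S : Type*} [CommRing R] [Algebra ℚ R] [CommRing S] [Algebra ℚ S]

private lemma map_chs' (i : R →+* S) (l a b : R) (k : ℕ) (s : Finset (ℕ × ℕ)) :
    i (chs l a b k s) = chs (i l) (i a) (i b) k s := by
  unfold chs
  rw [map_sum]
  apply Finset.sum_congr rfl
  intro e _
  unfold Cs.cn
  rw [map_mul, RingHom.map_rat_algebraMap, map_pow, map_add, map_add, map_mul, map_mul,
    map_natCast, map_natCast]

omit [Algebra ℚ R] [Algebra ℚ S] in
private lemma map_W1' (i : R →+* S) (a b : R) (s : Finset (ℕ × ℕ)) (e : ℕ × ℕ) :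
    i (W1 a b s e) = W1 (i a) (i b) s e := by
  unfold W1
  simp

omit [Algebra ℚ R] [Algebra ℚ S] in
private lemma map_W2' (i : R →+* S) (a b : R) (s : Finset (ℕ × ℕ)) (e : ℕ × ℕ) :
    i (W2 a b s e) = W2 (i a) (i b) s e := by
  unfold W2
  simp

lemma ZR_congr {φ φ' : Finset (ℕ × ℕ) → R} (h : ∀ s, Lo s → φ s = φ' s)
    (x : ℕ → Finset (ℕ × ℕ) → R) : ZR φ x = ZR φ' x := by
  ext1 I
  rw [coeff_ZR, coeff_ZR]
  ext n
  unfold qs
  rw [coeff_mk, coeff_mk]
  apply Finset.sum_congr rfl
  intro s hs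
  show φ s * _ = φ' s * _
  rw [h s (mem_dg.1 hs).1]

end

section

variable {K : Type*} [Field K] [CharZero K]

/-- the weight over the ring of power series -/
noncomputable def wR (a b c : K⟦X⟧) (s : Finset (ℕ × ℕ)) : K⟦X⟧ :=
  ∏ e ∈ s, ((c + W1 a b s e) * (c + W2 a b s e)) * (W1 a b s e * W2 a b s e)⁻¹

omit [CharZero K] in
lemma wR_empty (a b c : K⟦X⟧) : wR a b c ∅ = 1 := by
  unfold wR
  exact Finset.prod_empty

omit [CharZero K] in
lemma wR_p0 (a b c : K⟦X⟧) (s : Finset (ℕ × ℕ)) : constantCoeff (wR a b c s) =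
    wg (constantCoeff a) (constantCoeff b) (constantCoeff c) s := by
  unfold wR wg
  rw [map_prod]
  apply Finset.prod_congr rfl
  intro e _
  rw [map_mul, map_mul, map_add, map_add, constantCoeff_inv, map_mul, map_W1', map_W2',
    div_eq_mul_inv]

omit [CharZero K] in
lemma wR_p1 (a b c : K⟦X⟧) {s : Finset (ℕ × ℕ)}
    (h : ∀ e ∈ s, W1 (constantCoeff a) (constantCoeff b) s e ≠ 0 ∧
      W2 (constantCoeff a) (constantCoeff b) s e ≠ 0) :
    p1 (wR a b c s) = wg (p1 a) (p1 b) (p1 c) s := by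
  unfold wR wg
  rw [map_prod]
  apply Finset.prod_congr rfl
  intro e he
  have h1 : constantCoeff (W1 a b s e * W2 a b s e) ≠ 0 := by
    rw [map_mul, map_W1', map_W2']
    exact mul_ne_zero (h e he).1 (h e he).2
  rw [map_mul, map_mul, map_add, map_add, p1_inv h1, map_mul, map_W1', map_W2', div_eq_mul_inv]

/-- specialisation -/
lemma NF_spec {p : Bool} {aR bR cR lR : K⟦X⟧} {k : ℕ} {I : ℕ →₀ ℕ} {w : ℕ}
    (hW : ∀ s, Lo s → ∀ e ∈ s, W1 (constantCoeff aR) (constantCoeff bR) s e ≠ 0 ∧
      W2 (constantCoeff aR) (constantCoeff bR) s e ≠ 0)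
    (h : NF (p1 aR) (p1 bR) (p1 cR) (p1 lR) k I ∈ qM (LaurentSeries K) (okb p) w) :
    NF (constantCoeff aR) (constantCoeff bR) (constantCoeff cR) (constantCoeff lR) k I ∈
      qM K (okb p) w := by
  have hu : IsUnit (ZR (wR aR bR cR) (fun k s => chs lR aR bR k s)) :=
    ZR_unit (wR_empty aR bR cR) _
  have t0 : PowerSeries.map (constantCoeff (R := K)) (C (aR * bR) *
      MvPowerSeries.coeff I (ld (ZR (wR aR bR cR) (fun k s => chs lR aR bR k s)) k)) =
      NF (constantCoeff aR) (constantCoeff bR) (constantCoeff cR) (constantCoeff lR) k I := by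
    unfold NF
    rw [map_mul, PowerSeries.map_C, ← coeff_mp, mp_ld _ hu, mp_ZR, map_mul]
    have e1 : (fun s => constantCoeff (wR aR bR cR s)) =
        wg (constantCoeff aR) (constantCoeff bR) (constantCoeff cR) := by
      funext s
      rw [wR_p0]
    have e2 : (fun (k : ℕ) (s : Finset (ℕ × ℕ)) => constantCoeff (chs lR aR bR k s)) =
        fun k s => chs (constantCoeff lR) (constantCoeff aR) (constantCoeff bR) k s := by
      funext k s
      rw [map_chs']
    rw [e1, e2]
  have t1 : PowerSeries.map p1 (C (aR * bR) *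
      MvPowerSeries.coeff I (ld (ZR (wR aR bR cR) (fun k s => chs lR aR bR k s)) k)) =
      NF (p1 aR) (p1 bR) (p1 cR) (p1 lR) k I := by
    unfold NF
    rw [map_mul, PowerSeries.map_C, ← coeff_mp, mp_ld _ hu, mp_ZR, map_mul]
    have e1 : ∀ s, Lo s → p1 (wR aR bR cR s) = wg (p1 aR) (p1 bR) (p1 cR) s := by
      intro s hs
      exact wR_p1 _ _ _ (hW s hs)
    have e2 : (fun (k : ℕ) (s : Finset (ℕ × ℕ)) => p1 (chs lR aR bR k s)) =
        fun k s => chs (p1 lR) (p1 aR) (p1 bR) k s := by
      funext k s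
      rw [map_chs']
    rw [e2, ZR_congr e1]
  rw [← t0, ← cz_p1, t1]
  exact cz_qM h

lemma lin_indep (a b : K) (hb : b ≠ 0) (x y : ℤ)
    (h : (x : LaurentSeries K) * lin a 1 + y * lin b 0 = 0) : x = 0 ∧ y = 0 := by
  have hx : x = 0 := by
    have h1 := congrArg (fun f : LaurentSeries K => f.coeff 1) h
    have e1 : (x : LaurentSeries K) = HahnSeries.C (x : K) := by
      rw [map_intCast]
    have e2 : (y : LaurentSeries K) = HahnSeries.C (y : K) := by
      rw [map_intCast]
    simp only [e1, e2, HahnSeries.C_mul_eq_smul, HahnSeries.coeff_add, HahnSeries.coeff_smul,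
      smul_eq_mul] at h1
    unfold lin at h1
    rw [HahnSeries.coeff_add, HahnSeries.coeff_add, HahnSeries.coeff_single_same,
      HahnSeries.coeff_single_same, HahnSeries.C_apply, HahnSeries.C_apply,
      HahnSeries.coeff_single_of_ne one_ne_zero, HahnSeries.coeff_single_of_ne one_ne_zero] at h1
    have h2 : (x : K) = 0 := by
      rw [← h1.trans HahnSeries.coeff_zero]
      ring
    exact_mod_cast h2
  refine ⟨hx, ?_⟩
  have h1 := congrArg (fun f : LaurentSeries K => f.coeff 0) h
  rw [hx] at h1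
  have e2 : (y : LaurentSeries K) = HahnSeries.C (y : K) := by
    rw [map_intCast]
  simp only [e2, Int.cast_zero, zero_mul, zero_add, HahnSeries.C_mul_eq_smul,
    HahnSeries.coeff_smul, smul_eq_mul] at h1
  unfold lin at h1
  rw [HahnSeries.coeff_add, HahnSeries.C_apply, HahnSeries.coeff_single_same,
    HahnSeries.coeff_single_of_ne zero_ne_one] at h1
  have h2 : (y : K) * b = 0 := by
    rw [← h1.trans HahnSeries.coeff_zero]
    ring
  exact_mod_cast (mul_eq_zero.1 h2).resolve_right hb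

lemma lin_half {a b l : K} (h : 2 * l = a + b) :
    2 * lin l (1 / 2) = lin a 1 + lin b 0 := by
  unfold lin
  have e2 : (2 : LaurentSeries K) = HahnSeries.C (2 : K) := by
    rw [map_ofNat]
  rw [mul_add, e2, ← map_mul, h, HahnSeries.C_apply 2, HahnSeries.single_mul_single, zero_add,
    map_add, HahnSeries.single_eq_zero]
  have e3 : (2 : K) * (1 / 2) = 1 := by norm_num
  rw [e3]
  ring

omit [CharZero K] in
lemma b_ne {a b : K} (hW : ∀ s, Lo s → ∀ e ∈ s, W1 a b s e ≠ 0 ∧ W2 a b s e ≠ 0) : b ≠ 0 := by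
  have h1 : Lo ({(0, 0)} : Finset (ℕ × ℕ)) := by
    intro i j i' j' h h2 h3
    rw [Finset.mem_singleton, Prod.mk.injEq] at h ⊢
    omega
  have h2 := (hW _ h1 (0, 0) (Finset.mem_singleton_self _)).2
  intro h0
  apply h2
  have h3 : arm ({(0, 0)} : Finset (ℕ × ℕ)) (0, 0) = 0 := by decide
  unfold W2
  rw [h3, h0]
  push_cast
  ring

/-- `gen_low` for any `ℚ`-algebra structure -/
lemma gen_low' {F : Type*} [Field F] [inst : Algebra ℚ F] {p : Bool} {a b l : F}
    (hab : ∀ x y : ℤ, (x : F) * a + y * b = 0 → x = 0 ∧ y = 0)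
    (hp : p = true → 2 * l = a + b) (c : F) (k : ℕ) (I : ℕ →₀ ℕ) (hD : k + deg I ≤ 6) :
    NF a b c l k I ∈ qM F (okb p) (k + 2 + deg I + 2 * num I) := by
  have hc0 : CharZero F := algebraRat.charZero F
  have h : inst = DivisionRing.toRatAlgebra := Subsingleton.elim _ _
  subst h
  exact gen_low hab hp c k I hD

/-- the low degree theorem at one fixed point -/
theorem low {p : Bool} {a b c l : K}
    (hW : ∀ s, Lo s → ∀ e ∈ s, W1 a b s e ≠ 0 ∧ W2 a b s e ≠ 0)
    (hp : p = true → 2 * l = a + b) (k : ℕ) (I : ℕ →₀ ℕ) (hD : k + deg I ≤ 6) :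
    NF a b c l k I ∈ qM K (okb p) (k + 2 + deg I + 2 * num I) := by
  have h := NF_spec (p := p) (aR := C a + C 1 * X) (bR := C b + C 0 * X) (cR := C c + C 0 * X)
    (lR := C l + C (1 / 2) * X) (k := k) (I := I) (w := k + 2 + deg I + 2 * num I)
    (by rw [p0_lin, p0_lin]; exact hW)
    (by
      rw [p1_lin, p1_lin, p1_lin, p1_lin]
      exact gen_low' (lin_indep a b (b_ne hW)) (fun h => lin_half (hp h)) _ k I hD)
  rwa [p0_lin, p0_lin, p0_lin, p0_lin] at h

end

end MPa7fa83.Lw
end

section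

/-!
# W11: moments of low degree

If the coefficients of degree `≤ N` of the logarithmic derivatives of the series `Z c` are in the
span of q-zeta values, then so are, up to the factor `coeff 0`, the coefficients `τ^I`, `deg I ≤ N`,
of the product.
-/

set_option autoImplicit false

namespace MPa7fa83.Lw

open Finset PowerSeries MPa7fa83.Cs
open MPa7fa83.Ok hiding rs

section

variable {K : Type*} [Field K] [CharZero K]

omit [CharZero K] in
lemma ld_prod {ι : Type*} [Fintype ι] [DecidableEq ι] (Z : ι → MvPowerSeries ℕ K⟦X⟧)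
    (hu : ∀ c, IsUnit (Z c)) (k : ℕ) : ld (∏ c, Z c) k = ∑ c, ld (Z c) k := by
  have h1 : ∀ c, Z c * Ring.inverse (Z c) = 1 := fun c => Ring.mul_inverse_cancel _ (hu c)
  have h2 : (∏ c, Z c) * ∏ c, Ring.inverse (Z c) = 1 := by
    rw [← Finset.prod_mul_distrib]
    exact Finset.prod_eq_one fun c _ => h1 c
  rw [ld_eq h2, log_prod Z (fun c => Ring.inverse (Z c)) h1]
  rfl

theorem low_mom {p : Bool} {V : MvPowerSeries ℕ K⟦X⟧} (hV : IsUnit V) {N : ℕ}
    (h : ∀ k I, k + deg I ≤ N →
      MvPowerSeries.coeff I (ld V k) ∈ qM K (okb p) (k + 2 + deg I + 2 * num I))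
    (I : ℕ →₀ ℕ) (hI : deg I ≤ N) :
    ∃ G ∈ qM K (okb p) (Cs.wt I), MvPowerSeries.coeff I V = MvPowerSeries.coeff 0 V * G := by
  classical
  suffices H : ∀ (n : ℕ) (I : ℕ →₀ ℕ), num I = n → deg I ≤ N →
      ∃ G ∈ qM K (okb p) (Cs.wt I), MvPowerSeries.coeff I V = MvPowerSeries.coeff 0 V * G from
    H _ I rfl hI
  intro n
  induction n using Nat.strong_induction_on with
  | _ n ih =>
    intro I hI hN
    by_cases h0 : I = 0
    · subst h0
      refine ⟨1, ?_, by rw [mul_one]⟩
      rw [wt_zero']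
      exact one_mem_qM (okb_rel p).zero
    · obtain ⟨k, hk⟩ : ∃ k, I k ≠ 0 := by
        by_contra hcon
        push Not at hcon
        exact h0 (Finsupp.ext hcon)
      obtain ⟨I', rfl⟩ : ∃ I' : ℕ →₀ ℕ, I = I' + Finsupp.single k 1 := by
        refine ⟨I - Finsupp.single k 1, ?_⟩
        rw [tsub_add_cancel_of_le]
        rw [Finsupp.single_le_iff]
        omega
      rw [num_add, num_single] at hI
      rw [deg_add, deg_single, one_mul] at hN
      have hG : ∀ J : ℕ →₀ ℕ, num J < n → deg J ≤ N → ∃ G ∈ qM K (okb p) (Cs.wt J),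
          MvPowerSeries.coeff J V = MvPowerSeries.coeff 0 V * G := fun J hJ hJ' => ih _ hJ J rfl hJ'
      choose! G hG1 hG2 using hG
      have hle : ∀ x ∈ antidiagonal I', num x.2 < n ∧ deg x.2 ≤ N ∧ k + deg x.1 ≤ N := by
        intro x hx
        have hx' := Finset.HasAntidiagonal.mem_antidiagonal.1 hx
        have h1 := congrArg num hx'
        have h2 := congrArg deg hx'
        rw [num_add] at h1
        rw [deg_add] at h2
        omega
      have hkey : MvPowerSeries.coeff (I' + Finsupp.single k 1) V * ((I' k : K⟦X⟧) + 1)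
          = MvPowerSeries.coeff 0 V * ∑ x ∈ antidiagonal I',
            MvPowerSeries.coeff x.1 (ld V k) * G x.2 := by
        have e2 := MvPowerSeries.coeff_pderiv (R := K⟦X⟧) (i := k) V I'
        rw [← e2, ← ld_mul hV k, MvPowerSeries.coeff_mul, Finset.mul_sum]
        refine Finset.sum_congr rfl fun x hx => ?_
        rw [hG2 x.2 (hle x hx).1 (hle x hx).2.1]
        ring
      have hne : ((I' k : K) + 1) ≠ 0 := by exact_mod_cast Nat.succ_ne_zero (I' k)
      have hc : (C (((I' k : K) + 1)⁻¹) : K⟦X⟧) * ((I' k : K⟦X⟧) + 1) = 1 := by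
        have : ((I' k : K⟦X⟧) + 1) = C ((I' k : K) + 1) := by
          rw [map_add, map_one, map_natCast]
        rw [this, ← map_mul, inv_mul_cancel₀ hne, map_one]
      refine ⟨C (((I' k : K) + 1)⁻¹) * ∑ x ∈ antidiagonal I',
        MvPowerSeries.coeff x.1 (ld V k) * G x.2, ?_, ?_⟩
      · rw [← PowerSeries.smul_eq_C_mul]
        refine Submodule.smul_mem _ _ (Submodule.sum_mem _ fun x hx => ?_)
        have hx' := Finset.HasAntidiagonal.mem_antidiagonal.1 hx
        have hw : Cs.wt (I' + Finsupp.single k 1) =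
            (k + 2 + deg x.1 + 2 * num x.1) + Cs.wt x.2 := by
          rw [← hx', wt_add, wt_add, wt_single, wt_eq x.1]
          ring
        rw [hw]
        exact qM_mul (okb_rel p) (h k x.1 (hle x hx).2.2) (hG1 x.2 (hle x hx).1 (hle x hx).2.1)
      · calc MvPowerSeries.coeff (I' + Finsupp.single k 1) V
            = C (((I' k : K) + 1)⁻¹) *
              (MvPowerSeries.coeff (I' + Finsupp.single k 1) V * ((I' k : K⟦X⟧) + 1)) := by
              rw [mul_comm (MvPowerSeries.coeff (I' + Finsupp.single k 1) V), ← mul_assoc, hc,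
                one_mul]
          _ = _ := by rw [hkey]; ring

/-- the low degree theorem for several fixed points -/
theorem low_prod {p : Bool} {ι : Type*} [Fintype ι] [DecidableEq ι] {a b c l : ι → K}
    (hW : ∀ i s, Lo s → ∀ e ∈ s, W1 (a i) (b i) s e ≠ 0 ∧ W2 (a i) (b i) s e ≠ 0)
    (hp : p = true → ∀ i, 2 * l i = a i + b i) (I : ℕ →₀ ℕ) (hI : deg I ≤ 6) :
    ∃ G ∈ qM K (okb p) (Cs.wt I),
      MvPowerSeries.coeff I (∏ i, Zg (wg (a i) (b i) (c i))
        (fun k => chs (l i) (a i) (b i) k)) =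
      MvPowerSeries.coeff 0 (∏ i, Zg (wg (a i) (b i) (c i))
        (fun k => chs (l i) (a i) (b i) k)) * G := by
  have hu : ∀ i, IsUnit (Zg (wg (a i) (b i) (c i)) (fun k => chs (l i) (a i) (b i) k)) :=
    fun i => ZR_unit (wg_empty (a i) (b i) (c i)) (fun k s => chs (l i) (a i) (b i) k s)
  refine low_mom (N := 6) ?_ ?_ I hI
  · exact IsUnit.prod_univ_iff.2 hu
  · intro k J hJ
    rw [ld_prod _ hu, map_sum]
    refine Submodule.sum_mem _ fun i _ => ?_
    have h := low (p := p) (c := c i) (hW i) (fun h => hp h i) k J hJ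
    have hb : b i ≠ 0 := b_ne (hW i)
    have ha : a i ≠ 0 := by
      have h1 : Lo ({(0, 0)} : Finset (ℕ × ℕ)) := by
        intro i j i' j' h h2 h3
        rw [Finset.mem_singleton, Prod.mk.injEq] at h ⊢
        omega
      have h2 := (hW i _ h1 (0, 0) (Finset.mem_singleton_self _)).1
      intro h0
      apply h2
      have h3 : leg ({(0, 0)} : Finset (ℕ × ℕ)) (0, 0) = 0 := by decide
      unfold W1
      rw [h3, h0]
      push_cast
      ring
    have h2 := Submodule.smul_mem _ ((a i * b i)⁻¹) h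
    unfold NF at h2
    rw [PowerSeries.smul_eq_C_mul, ← mul_assoc, ← map_mul, inv_mul_cancel₀ (mul_ne_zero ha hb),
      map_one, one_mul] at h2
    exact h2

end

end MPa7fa83.Lw
end
end
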