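import Pool.Agent.Lib.MP_a7fa83_ag.Cs.L7

section

/-!
# W1: the generating series over a ring, logarithmic derivatives

`ZR φ x` is `∑_s φ(s) q^|s| exp(∑ τ_k x_k(s))` and `ld Z k = (∂_k Z) Z⁻¹`; both commute with ring
homomorphisms, and `ld` scales with the rescaling `τ_k ↦ λ^k τ_k`.
-/

set_option autoImplicit false

namespace MPa7fa83.Lw

open Finset PowerSeries MPa7fa83.Ok MPa7fa83.Cs

section

variable {R S : Type*} [CommRing R] [Algebra ℚ R] [CommRing S] [Algebra ℚ S]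

/-- the factor `x^I / I!` -/
noncomputable def sr (x : ℕ → R) (I : ℕ →₀ ℕ) : R := algebraMap ℚ R ((dfac I : ℚ)⁻¹) * mon x I

/-- the exponential generating series -/
noncomputable def ZR (φ : Finset (ℕ × ℕ) → R) (x : ℕ → Finset (ℕ × ℕ) → R) :
    MvPowerSeries ℕ R⟦X⟧ := fun I => qs (fun s => φ s * sr (fun k => x k s) I)

/-- the logarithmic derivative -/
noncomputable def ld (Z : MvPowerSeries ℕ R⟦X⟧) (k : ℕ) : MvPowerSeries ℕ R⟦X⟧ :=
  MvPowerSeries.pderiv R⟦X⟧ k Z * Ring.inverse Z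

lemma coeff_ZR (φ : Finset (ℕ × ℕ) → R) (x : ℕ → Finset (ℕ × ℕ) → R) (I : ℕ →₀ ℕ) :
    MvPowerSeries.coeff I (ZR φ x) = qs (fun s => φ s * sr (fun k => x k s) I) := rfl

lemma dfac_zero' : dfac 0 = 1 := by
  simp [dfac]

lemma sr_zero (x : ℕ → R) : sr x 0 = 1 := by
  unfold sr
  rw [dfac_zero', mon_zero]
  simp

lemma ZR_unit {φ : Finset (ℕ × ℕ) → R} (hφ : φ ∅ = 1) (x : ℕ → Finset (ℕ × ℕ) → R) :
    IsUnit (ZR φ x) := by
  rw [MvPowerSeries.isUnit_iff_constantCoeff, PowerSeries.isUnit_iff_constantCoeff,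
    ← MvPowerSeries.coeff_zero_eq_constantCoeff_apply, coeff_ZR, constantCoeff_qs, hφ, sr_zero,
    one_mul]
  exact isUnit_one

omit [Algebra ℚ R] in
lemma ld_eq {Z Y : MvPowerSeries ℕ R⟦X⟧} (h : Z * Y = 1) (k : ℕ) :
    ld Z k = MvPowerSeries.pderiv R⟦X⟧ k Z * Y := by
  have hu : IsUnit Z := IsUnit.of_mul_eq_one _ h
  unfold ld
  congr 1
  calc Ring.inverse Z = Ring.inverse Z * (Z * Y) := by rw [h, mul_one]
    _ = (Ring.inverse Z * Z) * Y := by ring
    _ = Y := by rw [Ring.inverse_mul_cancel _ hu, one_mul]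

omit [Algebra ℚ R] in
lemma ld_mul {Z : MvPowerSeries ℕ R⟦X⟧} (h : IsUnit Z) (k : ℕ) :
    ld Z k * Z = MvPowerSeries.pderiv R⟦X⟧ k Z := by
  unfold ld
  rw [mul_assoc, Ring.inverse_mul_cancel _ h, mul_one]

omit [Algebra ℚ R] [Algebra ℚ S] in
lemma map_mon (ψ : R →+* S) (x : ℕ → R) (I : ℕ →₀ ℕ) : ψ (mon x I) = mon (fun k => ψ (x k)) I := by
  unfold mon Finsupp.prod
  rw [map_prod]
  exact Finset.prod_congr rfl fun k _ => map_pow _ _ _

lemma map_sr (ψ : R →+* S) (x : ℕ → R) (I : ℕ →₀ ℕ) : ψ (sr x I) = sr (fun k => ψ (x k)) I := by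
  unfold sr
  rw [map_mul, RingHom.map_rat_algebraMap, map_mon]

omit [Algebra ℚ R] [Algebra ℚ S] in
lemma map_qs (ψ : R →+* S) (φ : Finset (ℕ × ℕ) → R) :
    PowerSeries.map ψ (qs φ) = qs (fun s => ψ (φ s)) := by
  ext n
  rw [PowerSeries.coeff_map]
  unfold qs
  rw [coeff_mk, coeff_mk, map_sum]

/-- the induced map on generating series -/
noncomputable def mp (ψ : R →+* S) : MvPowerSeries ℕ R⟦X⟧ →+* MvPowerSeries ℕ S⟦X⟧ :=
  MvPowerSeries.map (PowerSeries.map ψ)

omit [Algebra ℚ R] [Algebra ℚ S] in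
lemma coeff_mp (ψ : R →+* S) (Z : MvPowerSeries ℕ R⟦X⟧) (I : ℕ →₀ ℕ) :
    MvPowerSeries.coeff I (mp ψ Z) = PowerSeries.map ψ (MvPowerSeries.coeff I Z) :=
  MvPowerSeries.coeff_map _ _ _

lemma mp_ZR (ψ : R →+* S) (φ : Finset (ℕ × ℕ) → R) (x : ℕ → Finset (ℕ × ℕ) → R) :
    mp ψ (ZR φ x) = ZR (fun s => ψ (φ s)) (fun k s => ψ (x k s)) := by
  ext1 I
  rw [coeff_mp, coeff_ZR, coeff_ZR, map_qs]
  simp only [map_mul, map_sr]

omit [Algebra ℚ R] [Algebra ℚ S] in
lemma mp_pderiv (ψ : R →+* S) (Z : MvPowerSeries ℕ R⟦X⟧) (k : ℕ) :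
    mp ψ (MvPowerSeries.pderiv R⟦X⟧ k Z) = MvPowerSeries.pderiv S⟦X⟧ k (mp ψ Z) := by
  ext1 I
  rw [coeff_mp, MvPowerSeries.coeff_pderiv, MvPowerSeries.coeff_pderiv, coeff_mp, map_mul, map_add,
    map_natCast, map_one]

omit [Algebra ℚ R] [Algebra ℚ S] in
lemma mp_ld (ψ : R →+* S) {Z : MvPowerSeries ℕ R⟦X⟧} (h : IsUnit Z) (k : ℕ) :
    mp ψ (ld Z k) = ld (mp ψ Z) k := by
  have h1 : mp ψ Z * mp ψ (Ring.inverse Z) = 1 := by
    rw [← map_mul, Ring.mul_inverse_cancel _ h, map_one]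
  rw [ld_eq h1]
  unfold ld
  rw [map_mul, mp_pderiv]

omit [Algebra ℚ R] in
lemma ld_rescale (a : ℕ → R⟦X⟧) {Z : MvPowerSeries ℕ R⟦X⟧} (h : IsUnit Z) (k : ℕ) :
    ld (MvPowerSeries.rescale a Z) k = MvPowerSeries.C (a k) * MvPowerSeries.rescale a (ld Z k) := by
  have h1 : MvPowerSeries.rescale a Z * MvPowerSeries.rescale a (Ring.inverse Z) = 1 := by
    rw [← map_mul, Ring.mul_inverse_cancel _ h, map_one]
  rw [ld_eq h1]
  unfold ld
  rw [map_mul, ← mul_assoc]
  congr 1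
  ext1 I
  rw [MvPowerSeries.coeff_pderiv, MvPowerSeries.coeff_C_mul, MvPowerSeries.coeff_rescale,
    MvPowerSeries.coeff_rescale, MvPowerSeries.coeff_pderiv,
    Finsupp.prod_add_index' (fun _ => pow_zero _) (fun _ _ _ => pow_add _ _ _)]
  have e : ((Finsupp.single k 1).prod fun x m => a x ^ m) = a k := by
    simp [Finsupp.prod_single_index]
  rw [e]
  ring

/-- the degree of `I + single k 1` -/
lemma prod_pow_deg {M : Type*} [CommMonoid M] (x : M) (I : ℕ →₀ ℕ) :
    (I.prod fun k m => (x ^ k) ^ m) = x ^ deg I := by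
  unfold deg Finsupp.sum Finsupp.prod
  rw [← Finset.prod_pow_eq_pow_sum]
  exact Finset.prod_congr rfl fun k _ => by
    show (x ^ k) ^ I k = x ^ (I k * k)
    rw [← pow_mul, mul_comm]

lemma ZR_scale (t : R) (φ : Finset (ℕ × ℕ) → R) (x : ℕ → Finset (ℕ × ℕ) → R) :
    ZR φ (fun k s => t ^ k * x k s) = MvPowerSeries.rescale (fun k => C t ^ k) (ZR φ x) := by
  ext1 I
  rw [MvPowerSeries.coeff_rescale, prod_pow_deg, coeff_ZR, coeff_ZR, ← map_pow, ← qs_smul]
  congr 1
  funext s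
  have e : mon (fun k => t ^ k * x k s) I = t ^ deg I * mon (fun k => x k s) I := by
    unfold mon
    rw [← prod_pow_deg, ← Finsupp.prod_mul]
    exact Finsupp.prod_congr fun k _ => mul_pow _ _ _
  unfold sr
  rw [e]
  ring

/-- scaling of the logarithmic derivatives -/
lemma ld_scale (t : R) {φ : Finset (ℕ × ℕ) → R} (hφ : φ ∅ = 1) (x : ℕ → Finset (ℕ × ℕ) → R)
    (k : ℕ) (I : ℕ →₀ ℕ) :
    MvPowerSeries.coeff I (ld (ZR φ (fun k s => t ^ k * x k s)) k) =
      C (t ^ (k + deg I)) * MvPowerSeries.coeff I (ld (ZR φ x) k) := by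
  rw [ZR_scale, ld_rescale _ (ZR_unit hφ x), MvPowerSeries.coeff_C_mul,
    MvPowerSeries.coeff_rescale, prod_pow_deg, ← mul_assoc, ← pow_add, ← map_pow]

end

section

variable {F : Type*} [Field F] [Algebra ℚ F]

/-- the value at the weights `a, b` (tangent weights), `c` (weight of `M`), `l` (weight of `L`),
with the sign conventions of `wg` and `chs` -/
noncomputable def NF (a b c l : F) (k : ℕ) (I : ℕ →₀ ℕ) : F⟦X⟧ :=
  C (a * b) * MvPowerSeries.coeff I (ld (ZR (wg a b c) (fun k s => chs l a b k s)) k)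

omit [Algebra ℚ F] in
lemma wg_scale (t a b c : F) (ht : t ≠ 0) (s : Finset (ℕ × ℕ)) :
    wg (t * a) (t * b) (t * c) s = wg a b c s := by
  unfold wg
  apply Finset.prod_congr rfl
  intro e _
  have e1 : W1 (t * a) (t * b) s e = t * W1 a b s e := by unfold W1; ring
  have e2 : W2 (t * a) (t * b) s e = t * W2 a b s e := by unfold W2; ring
  rw [e1, e2]
  have h1 : (t * c + t * W1 a b s e) * (t * c + t * W2 a b s e) =
      t ^ 2 * ((c + W1 a b s e) * (c + W2 a b s e)) := by ring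
  have h2 : t * W1 a b s e * (t * W2 a b s e) = t ^ 2 * (W1 a b s e * W2 a b s e) := by ring
  rw [h1, h2, mul_div_mul_left _ _ (pow_ne_zero 2 ht)]

lemma chs_scale (t l a b : F) (k : ℕ) (s : Finset (ℕ × ℕ)) :
    chs (t * l) (t * a) (t * b) k s = t ^ k * chs l a b k s := by
  unfold chs
  rw [Finset.mul_sum]
  apply Finset.sum_congr rfl
  intro e _
  have e1 : t * l + Cs.cn (t * a) (t * b) e = t * (l + Cs.cn a b e) := by unfold Cs.cn; ring
  rw [e1, mul_pow]
  ring

/-- homogeneity -/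
lemma NF_scale (t a b c l : F) (ht : t ≠ 0) (k : ℕ) (I : ℕ →₀ ℕ) :
    NF (t * a) (t * b) (t * c) (t * l) k I = C (t ^ (k + 2 + deg I)) * NF a b c l k I := by
  unfold NF
  have e1 : wg (t * a) (t * b) (t * c) = wg a b c := funext fun s => wg_scale t a b c ht s
  have e2 : (fun (k : ℕ) (s : Finset (ℕ × ℕ)) => chs (t * l) (t * a) (t * b) k s) =
      fun k s => t ^ k * chs l a b k s := by
    funext k s
    exact chs_scale t l a b k s
  have e3 : (C (t * a * (t * b)) : F⟦X⟧) * C (t ^ (k + deg I)) =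
      C (t ^ (k + 2 + deg I)) * C (a * b) := by
    rw [← map_mul, ← map_mul]
    congr 1
    ring
  rw [e1, e2, ld_scale t (wg_empty a b c)]
  linear_combination
    (MvPowerSeries.coeff I (ld (ZR (wg a b c) (fun k s => chs l a b k s)) k)) * e3

end

end MPa7fa83.Lw
end

section

/-!
# W2: dependence on the weight of `M`, the top coefficients

`gP a b l k I` is a `q`-series whose coefficients are polynomials in the weight `c` of `M`.
`gen_main` (for the family `z a, z b, 1, z l`) and homogeneity give: the degree of the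
polynomials is at most `k + 2 + deg I`, and the three top coefficients are in the span of
q-zeta values.
-/

set_option autoImplicit false

namespace MPa7fa83.Lw

open Finset PowerSeries MPa7fa83.Ok MPa7fa83.Cs

section

variable {K F : Type*} [Field K] [Algebra ℚ K] [Field F] [Algebra ℚ F]

/-- the weight of a diagram as a polynomial in the weight of `M` -/
noncomputable def wp (a b : K) (s : Finset (ℕ × ℕ)) : Polynomial K :=
  ∏ e ∈ s, ((Polynomial.X + Polynomial.C (W1 a b s e)) *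
    (Polynomial.X + Polynomial.C (W2 a b s e)) * Polynomial.C ((W1 a b s e * W2 a b s e)⁻¹))

omit [Algebra ℚ K] in
lemma wp_empty (a b : K) : wp a b ∅ = 1 := by
  unfold wp
  exact Finset.prod_empty

/-- the value of `NF` as a polynomial in the weight of `M` -/
noncomputable def gP (a b l : K) (k : ℕ) (I : ℕ →₀ ℕ) : (Polynomial K)⟦X⟧ :=
  C (Polynomial.C (a * b)) * MvPowerSeries.coeff I
    (ld (ZR (wp a b) (fun k s => Polynomial.C (chs l a b k s))) k)

lemma map_chs (i : K →+* F) (l a b : K) (k : ℕ) (s : Finset (ℕ × ℕ)) :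
    i (chs l a b k s) = chs (i l) (i a) (i b) k s := by
  unfold chs
  rw [map_sum]
  apply Finset.sum_congr rfl
  intro e _
  unfold Cs.cn
  rw [map_mul, RingHom.map_rat_algebraMap, map_pow, map_add, map_add, map_mul, map_mul,
    map_natCast, map_natCast]

omit [Algebra ℚ K] [Algebra ℚ F] in
lemma map_W1 (i : K →+* F) (a b : K) (s : Finset (ℕ × ℕ)) (e : ℕ × ℕ) :
    i (W1 a b s e) = W1 (i a) (i b) s e := by
  unfold W1
  simp

omit [Algebra ℚ K] [Algebra ℚ F] in
lemma map_W2 (i : K →+* F) (a b : K) (s : Finset (ℕ × ℕ)) (e : ℕ × ℕ) :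
    i (W2 a b s e) = W2 (i a) (i b) s e := by
  unfold W2
  simp

omit [Algebra ℚ K] [Algebra ℚ F] in
lemma map_wp (ψ : Polynomial K →+* F) (a b : K) (s : Finset (ℕ × ℕ)) :
    ψ (wp a b s) = wg (ψ (Polynomial.C a)) (ψ (Polynomial.C b)) (ψ Polynomial.X) s := by
  have h : ∀ x : K, ψ (Polynomial.C x) = (ψ.comp Polynomial.C) x := fun x => rfl
  unfold wp wg
  rw [map_prod]
  apply Finset.prod_congr rfl
  intro e _
  rw [map_mul, map_mul, map_add, map_add, h, h, h, map_inv₀, map_mul, map_W1, map_W2,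
    div_eq_mul_inv]
  rfl

/-- specialisation of the weight of `M` -/
lemma map_gP (ψ : Polynomial K →+* F) (a b l : K) (k : ℕ) (I : ℕ →₀ ℕ) :
    PowerSeries.map ψ (gP a b l k I) = NF (ψ (Polynomial.C a)) (ψ (Polynomial.C b))
      (ψ Polynomial.X) (ψ (Polynomial.C l)) k I := by
  unfold gP NF
  rw [map_mul, PowerSeries.map_C, ← coeff_mp, mp_ld _ (ZR_unit (wp_empty a b) _), mp_ZR, map_mul,
    map_mul]
  have e1 : (fun s => ψ (wp a b s)) =
      wg (ψ (Polynomial.C a)) (ψ (Polynomial.C b)) (ψ Polynomial.X) :=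
    funext fun s => map_wp ψ a b s
  have e2 : (fun (k : ℕ) (s : Finset (ℕ × ℕ)) => ψ (Polynomial.C (chs l a b k s))) =
      fun k s => chs (ψ (Polynomial.C l)) (ψ (Polynomial.C a)) (ψ (Polynomial.C b)) k s := by
    funext k s
    exact map_chs (ψ.comp Polynomial.C) l a b k s
  rw [e1, e2]

/-- the coefficient of the `j`-th power of the weight of `M` -/
noncomputable def cu (j : ℕ) (g : (Polynomial K)⟦X⟧) : K⟦X⟧ :=
  PowerSeries.mk fun n => (coeff n g).coeff j

end

section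

variable {K : Type*} [Field K] [CharZero K]

private lemma Zg_ev {ι : Type*} (t1 t2 t3 l : ι → LaurentSeries K) (c : ι) :
    MvPowerSeries.map (Pi.evalRingHom (fun _ => (LaurentSeries K)⟦X⟧) c)
      (Z12 t1 t2 t3 l 0) = ZR (wg (t1 c) (t2 c) (t3 c)) (fun k s => chs (l c) (t1 c) (t2 c) k s) := by
  ext1 I
  rw [MvPowerSeries.coeff_map]
  show qs _ = qs _
  congr 1
  funext s
  rw [mon_zero, one_mul]
  rfl

private lemma map_pd {R S : Type*} [CommRing R] [CommRing S] (φ : R →+* S) (k : ℕ)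
    (f : MvPowerSeries ℕ R) :
    MvPowerSeries.map φ (MvPowerSeries.pderiv R k f) =
      MvPowerSeries.pderiv S k (MvPowerSeries.map φ f) := by
  ext n
  rw [MvPowerSeries.coeff_map, MvPowerSeries.coeff_pderiv, MvPowerSeries.coeff_pderiv,
    MvPowerSeries.coeff_map, map_mul, map_add, map_natCast, map_one]

/-- the relation between `NF` and the series of `gen_main` -/
lemma Z12_NF {ι : Type*} (t1 t2 t3 l : ι → LaurentSeries K)
    {Zi : MvPowerSeries ℕ (ι → (LaurentSeries K)⟦X⟧)} (hZ : Z12 t1 t2 t3 l 0 * Zi = 1)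
    (k : ℕ) (I : ℕ →₀ ℕ) (c : ι) :
    MvPowerSeries.coeff I (Z12 t1 t2 t3 l (Finsupp.single k 1) * Zi) c =
      NF (t1 c) (t2 c) (t3 c) (l c) k I := by
  set ev' := Pi.evalRingHom (fun _ : ι => (LaurentSeries K)⟦X⟧) c with hev
  have e1 := Z12_succ t1 t2 t3 l 0 k
  rw [zero_add] at e1
  have e2 : MvPowerSeries.coeff I (Z12 t1 t2 t3 l (Finsupp.single k 1) * Zi) c =
      ev' (MvPowerSeries.coeff I (Z12 t1 t2 t3 l (Finsupp.single k 1) * Zi)) := rfl
  have h1 : MvPowerSeries.map ev' (Z12 t1 t2 t3 l 0) * MvPowerSeries.map ev' Zi = 1 := by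
    rw [← map_mul, hZ, map_one]
  rw [e2, e1, mul_assoc, MvPowerSeries.coeff_C_mul, map_mul, ← MvPowerSeries.coeff_map, map_mul,
    map_pd]
  unfold NF
  rw [← Zg_ev, ld_eq h1]
  rfl

/-- the family `z a, z b, 1, z l` -/
theorem top_lin (p : Bool) (a b L : K) (hab : ∀ x y : ℤ, (x : K) * a + y * b = 0 → x = 0 ∧ y = 0)
    (hp : p = true → 2 * L = a + b) (k : ℕ) (I : ℕ →₀ ℕ) :
    Reg (NF (lin 0 a) (lin 0 b) (lin 1 0) (lin 0 L) k I) ∧
    ∀ i : Fin 3, cz (i : ℕ) (NF (lin 0 a) (lin 0 b) (lin 1 0) (lin 0 L) k I) ∈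
      qM K (okb p) (k + 2 + deg I + 2 * num I) := by
  set A : Unit → K := fun _ => -a with hA
  set B : Unit → K := fun _ => -b with hB
  obtain ⟨Zi, hZ⟩ := Z12_inv (c1 A) (c1 B) (c3 (-1 : K) (fun _ : Unit => (0 : K)))
    (c4 (0 : K) (fun _ : Unit => L))
  have h := gen_main (ρ := fun _ : Unit => (0 : K)) p A B (fun _ => 0) (fun _ => L) (-1) 0
    (neg_ne_zero.2 one_ne_zero) (fun c x y hxy => by
      have h2 : -((x : K) * a + y * b) = 0 := by
        rw [← hxy, hA, hB]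
        ring
      exact hab x y (neg_eq_zero.1 h2))
    (by simp) (by simp) (by simp)
    (fun h => ⟨rfl, fun c => by rw [hp h, hA, hB]; ring⟩) hZ k I
  obtain ⟨h1, ⟨g, hg, hg'⟩, ⟨h3, _⟩, h4⟩ := h
  have e : ∀ c : Unit, MvPowerSeries.coeff I (Z12 (c1 A) (c1 B)
      (c3 (-1 : K) (fun _ : Unit => (0 : K))) (c4 (0 : K) (fun _ : Unit => L))
      (Finsupp.single k 1) * Zi) c = NF (lin 0 a) (lin 0 b) (lin 1 0) (lin 0 L) k I := by
    intro c
    rw [Z12_NF _ _ _ _ hZ]
    have e1 : c1 A c = lin 0 a := by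
      unfold c1
      rw [hA, neg_neg]
    have e2 : c1 B c = lin 0 b := by
      unfold c1
      rw [hB, neg_neg]
    have e3 : c3 (-1 : K) (fun _ : Unit => (0 : K)) c = lin 1 0 := by
      unfold c3
      rw [neg_neg, neg_zero]
    rw [e1, e2, e3]
    rfl
  have e0 := e ()
  refine ⟨by rw [← e0]; exact h1 (), ?_⟩
  intro i
  rw [← e0]
  fin_cases i
  · show cz 0 _ ∈ _
    rw [hg' ()]
    exact hg
  · exact h3 ()
  · exact h4 ()

end

section

variable {K : Type*} [Field K] [CharZero K]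

/-- the variable `z` -/
private noncomputable def zz : LaurentSeries K := HahnSeries.single 1 1

private lemma zz_ne : (zz : LaurentSeries K) ≠ 0 :=
  HahnSeries.single_ne_zero one_ne_zero

omit [CharZero K] in
private lemma psi_coeff (p : Polynomial K) (j : ℕ) :
    (Polynomial.eval₂ HahnSeries.C (HahnSeries.single (-1 : ℤ) (1 : K)) p).coeff (-(j : ℤ)) =
      p.coeff j := by
  induction p using Polynomial.induction_on' with
  | add p q hp hq =>
    rw [Polynomial.eval₂_add, HahnSeries.coeff_add, hp, hq, Polynomial.coeff_add]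
  | monomial n a =>
    rw [Polynomial.eval₂_monomial, HahnSeries.single_pow, HahnSeries.C_apply,
      HahnSeries.single_mul_single, Polynomial.coeff_monomial, HahnSeries.coeff_single]
    simp only [zero_add, one_pow, mul_one, smul_neg, nsmul_eq_mul]
    split_ifs with h1 h2 h2
    · rfl
    · exact absurd (by omega) h2
    · exact absurd (by subst h2; ring) h1
    · rfl

omit [CharZero K] in
private lemma lin_zero_eq (a : K) : lin 0 a = zz * HahnSeries.C a := by
  unfold lin zz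
  rw [map_zero, zero_add, HahnSeries.C_apply, HahnSeries.single_mul_single, one_mul, add_zero]

omit [CharZero K] in
private lemma lin_one_eq : (lin 1 0 : LaurentSeries K) = zz * HahnSeries.single (-1 : ℤ) (1 : K) := by
  unfold lin zz
  rw [HahnSeries.single_mul_single, map_one, mul_one]
  simp

private lemma NF_eq (a b L : K) (k : ℕ) (I : ℕ →₀ ℕ) (n : ℕ) (i : ℤ) :
    (coeff n (NF (lin 0 a) (lin 0 b) (lin 1 0) (lin 0 L) k I)).coeff i =
      (Polynomial.eval₂ HahnSeries.C (HahnSeries.single (-1 : ℤ) (1 : K))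
        (coeff n (gP a b L k I))).coeff (i - (k + 2 + deg I : ℕ)) := by
  have h1 : NF (lin 0 a) (lin 0 b) (lin 1 0) (lin 0 L) k I =
      C (zz ^ (k + 2 + deg I)) * PowerSeries.map
        (Polynomial.eval₂RingHom HahnSeries.C (HahnSeries.single (-1 : ℤ) (1 : K)))
        (gP a b L k I) := by
    rw [map_gP, lin_zero_eq, lin_zero_eq, lin_zero_eq, lin_one_eq, NF_scale _ _ _ _ _ zz_ne]
    simp only [Polynomial.coe_eval₂RingHom, Polynomial.eval₂_C, Polynomial.eval₂_X]
  rw [h1, coeff_C_mul, PowerSeries.coeff_map, Polynomial.coe_eval₂RingHom]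
  unfold zz
  rw [HahnSeries.single_pow, one_pow, nsmul_one]
  have h := HahnSeries.coeff_single_mul_add (r := (1 : K))
    (x := Polynomial.eval₂ HahnSeries.C (HahnSeries.single (-1 : ℤ) (1 : K))
      (coeff n (gP a b L k I))) (a := i - (k + 2 + deg I : ℕ)) (b := ((k + 2 + deg I : ℕ) : ℤ))
  rw [sub_add_cancel, one_mul] at h
  exact h

/-- the degree in the weight of `M` is at most `k + 2 + deg I` -/
theorem cu_zero (a b L : K) (hab : ∀ x y : ℤ, (x : K) * a + y * b = 0 → x = 0 ∧ y = 0)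
    (k : ℕ) (I : ℕ →₀ ℕ) (j : ℕ) (hj : k + 2 + deg I < j) : cu j (gP a b L k I) = 0 := by
  have h := (top_lin false a b L hab (fun h => absurd h (by decide)) k I).1
  ext n
  unfold cu
  rw [coeff_mk, map_zero]
  have h2 := congrArg (coeff n) (h (((k + 2 + deg I : ℕ) : ℤ) - j) (by omega))
  unfold cz at h2
  rw [coeff_mk, map_zero, NF_eq] at h2
  rw [← psi_coeff, ← h2]
  congr 1
  omega

/-- the three top coefficients are in the span of q-zeta values -/
theorem cu_top (p : Bool) (a b L : K)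
    (hab : ∀ x y : ℤ, (x : K) * a + y * b = 0 → x = 0 ∧ y = 0)
    (hp : p = true → 2 * L = a + b) (k : ℕ) (I : ℕ →₀ ℕ) (j : ℕ) (hj : k + deg I ≤ j) :
    cu j (gP a b L k I) ∈ qM K (okb p) (k + 2 + deg I + 2 * num I) := by
  rcases lt_or_ge (k + 2 + deg I) j with h0 | h0
  · rw [cu_zero a b L hab k I j h0]
    exact Submodule.zero_mem _
  · have h := (top_lin p a b L hab hp k I).2 ⟨k + 2 + deg I - j, by omega⟩
    have e : cz ((k + 2 + deg I - j : ℕ) : ℤ) (NF (lin 0 a) (lin 0 b) (lin 1 0) (lin 0 L) k I) =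
        cu j (gP a b L k I) := by
      ext n
      unfold cz cu
      rw [coeff_mk, coeff_mk, NF_eq, ← psi_coeff]
      congr 1
      omega
    rw [← e]
    exact h

end

end MPa7fa83.Lw
end
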